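import Pool.Agent.TH847.LM.Key
import Pool.Agent.TH847.LM.Phi

/-! The choice of the parameters. -/

set_option autoImplicit false

namespace Pool.Agent.TH847.LM
open Finset Filter Pool.Agent.W301.SS Pool.Agent.H807R2.Dav

/-- the basic facts on the sizes -/
lemma sizes (δ : ℝ) (hδ : 0 < δ) (hδ1 : δ ≤ 1 / 8) : ∀ᶠ m : ℕ in atTop, ∀ (J : ℕ) (W : ℝ), 2 ≤ W →
    (Real.log m ^ 10 * W ^ 3) ^ 2 ≤ J → (J : ℝ) ≤ (m : ℝ) ^ (δ / 2) →
    1 ≤ J ∧ W ^ 3 ≤ (m : ℝ) ^ (δ / 4) ∧ ((((J + 1) * m : ℕ) : ℕ) : ℝ) ≤ 2 * (J * m) ∧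
    Real.log ((J + 1) * m : ℕ) ≤ (1 + δ) * Real.log m ∧ Real.log m ≤ Real.log ((J + 1) * m : ℕ) := by
  filter_upwards [ev_L (4 / δ + 4), eventually_ge_atTop 2] with m h1 hm J W hW hJ1 hJ2
  have hmr : (2 : ℝ) ≤ m := by exact_mod_cast hm
  have hm0 : (0 : ℝ) < m := by linarith
  have hm1 : (1 : ℝ) ≤ m := by linarith
  set ℓ := Real.log m with hℓ
  have hd1 : 0 < 4 / δ := by positivity
  have hℓ4 : 4 ≤ ℓ := by linarith
  have hℓ0 : 0 < ℓ := by linarith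
  have hW0 : 0 < W := by linarith
  have hW3 : 1 ≤ W ^ 3 := one_le_pow₀ (by linarith)
  have hP1 : 1 ≤ ℓ ^ 10 * W ^ 3 := by
    have : 1 ≤ ℓ ^ 10 := one_le_pow₀ (by linarith)
    nlinarith
  have hP2 : 1 ≤ (ℓ ^ 10 * W ^ 3) ^ 2 := one_le_pow₀ hP1
  have hJr : (1 : ℝ) ≤ J := hP2.trans hJ1
  have hJ : 1 ≤ J := by exact_mod_cast hJr
  have hN : (((J + 1) * m : ℕ) : ℝ) = (J + 1) * m := by push_cast; ring
  have hNle : (((J + 1) * m : ℕ) : ℝ) ≤ 2 * (J * m) := by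
    rw [hN]
    nlinarith
  refine ⟨hJ, ?_, hNle, ?_, ?_⟩
  · have h2 : (W ^ 3) ^ 2 ≤ ((m : ℝ) ^ (δ / 4)) ^ 2 := by
      have h1W : W ^ 3 ≤ ℓ ^ 10 * W ^ 3 := by
        have : 1 ≤ ℓ ^ 10 := one_le_pow₀ (by linarith)
        nlinarith
      calc (W ^ 3) ^ 2 ≤ (ℓ ^ 10 * W ^ 3) ^ 2 := pow_le_pow_left₀ (by positivity) h1W 2
        _ ≤ (J : ℝ) := hJ1
        _ ≤ (m : ℝ) ^ (δ / 2) := hJ2
        _ = _ := by
          rw [← Real.rpow_natCast, ← Real.rpow_mul hm0.le]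
          congr 1; push_cast; ring
    exact le_of_sq_le_sq h2 (by positivity)
  · have h3 : (((J + 1) * m : ℕ) : ℝ) ≤ 2 * (m : ℝ) ^ (1 + δ / 2) := by
      refine hNle.trans ?_
      rw [Real.rpow_add hm0, Real.rpow_one]
      nlinarith
    have h4 := Real.log_le_log (by rw [hN]; positivity) h3
    rw [Real.log_mul (by norm_num) (by positivity), Real.log_rpow hm0] at h4
    have h5 := Real.log_two_lt_d9
    have h6 : 1 ≤ δ / 2 * ℓ := by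
      have : 4 / δ ≤ ℓ := by linarith
      rw [div_le_iff₀ hδ] at this
      linarith
    rw [← hℓ] at h4
    nlinarith
  · apply Real.log_le_log hm0
    rw [hN]
    nlinarith

lemma four_ana (δ : ℝ) (hδ : 0 < δ) (hδ1 : δ ≤ 1 / 8) : ∀ᶠ m : ℕ in atTop, ∀ (J : ℕ) (W : ℝ), 2 ≤ W →
    (Real.log m ^ 10 * W ^ 3) ^ 2 ≤ J → (J : ℝ) ≤ (m : ℝ) ^ (δ / 2) → ∀ c : ℕ,
    (Real.log m ^ 10 * W ^ 3) ^ 2 ≤ ((m / c.gcd m : ℕ) : ℝ) →
    ‖∑ n ∈ range m, ((FF m J n : ℝ) : ℂ) * ee ((n : ℝ) * ((c : ℝ) / m))‖ ≤ (J : ℝ) * m / W ^ 3 := by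
  obtain ⟨C0, hC0, hfour⟩ := four_large
  filter_upwards [sizes δ hδ hδ1, ev_L (288 + 8 * 6561 * C0), eventually_ge_atTop 2,
    ev_log 7 (8 * 2187 * C0) (1 / 10) (by norm_num)] with m hs h1 hm h7 J W hW hJ1 hJ2 c hc
  obtain ⟨hJ, hW3m, hN2, hLN, hLN2⟩ := hs J W hW hJ1 hJ2
  have hmr : (2 : ℝ) ≤ m := by exact_mod_cast hm
  have hm0 : (0 : ℝ) < m := by linarith
  have hm1 : (1 : ℝ) ≤ m := by linarith
  set ℓ := Real.log m with hℓ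
  have hCpos : 0 < 8 * 6561 * C0 := by positivity
  have hℓ4 : 288 ≤ ℓ := by linarith
  have hℓ1 : 1 ≤ ℓ := by linarith
  have hℓ0 : 0 < ℓ := by linarith
  have hW0 : 0 < W := by linarith
  have hW31 : 1 ≤ W ^ 3 := one_le_pow₀ (by linarith)
  have hW30 : 0 < W ^ 3 := by positivity
  have hJr : (1 : ℝ) ≤ J := by exact_mod_cast hJ
  have hJ0 : (0 : ℝ) < J := by linarith
  set N : ℕ := (J + 1) * m with hNdef
  have hN : (N : ℝ) = (J + 1) * m := by rw [hNdef]; push_cast; ring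
  have hN0 : (0 : ℝ) < N := by rw [hN]; positivity
  set P : ℝ := ℓ ^ 10 * W ^ 3 with hP
  have hP0 : 0 < P := by positivity
  have hP1 : 1 ≤ P := by
    have : 1 ≤ ℓ ^ 10 := one_le_pow₀ hℓ1
    rw [hP]
    nlinarith
  set Q : ℕ := ⌊P ^ 2⌋₊ with hQ
  have hQ1 : 1 ≤ Q := Nat.le_floor (by push_cast; exact one_le_pow₀ hP1)
  have hQle : (Q : ℝ) ≤ P ^ 2 := Nat.floor_le (by positivity)
  have hQr : (1 : ℝ) ≤ Q := by exact_mod_cast hQ1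
  have hQge : P ^ 2 / 2 ≤ Q := by
    have := Nat.lt_floor_add_one (P ^ 2)
    rw [← hQ] at this
    linarith
  have hQq : Q ≤ m / c.gcd m := by exact_mod_cast hQle.trans hc
  have hQm : Q * c.gcd m ≤ m := by
    calc Q * c.gcd m ≤ (m / c.gcd m) * c.gcd m := Nat.mul_le_mul_right _ hQq
      _ ≤ m := Nat.div_mul_le_self _ _
  have hmain := hfour m J c Q (by omega) hQ1 hQm
  rw [← hNdef] at hmain
  refine hmain.trans ?_
  -- bounds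
  have hLN0 : 0 ≤ Real.log N := by linarith
  have b0 : 1 + Real.log N ≤ 3 * ℓ := by nlinarith
  have b1 : (1 + Real.log N) ^ 7 ≤ 2187 * ℓ ^ 7 := by
    calc (1 + Real.log N) ^ 7 ≤ (3 * ℓ) ^ 7 := pow_le_pow_left₀ (by linarith) b0 7
      _ = _ := by ring
  have b2 : (N : ℝ) / √Q ≤ 2 * N / P := by
    have : P / 2 ≤ √(Q : ℝ) := by
      apply Real.le_sqrt_of_sq_le
      calc (P / 2) ^ 2 = P ^ 2 / 4 := by ring
        _ ≤ P ^ 2 / 2 := by nlinarith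
        _ ≤ Q := hQge
    calc (N : ℝ) / √Q ≤ N / (P / 2) := by gcongr
      _ = _ := by field_simp
  have b3 : (N : ℝ) / √((J : ℝ) + 1) ≤ N / P := by
    have : P ≤ √((J : ℝ) + 1) := by
      apply Real.le_sqrt_of_sq_le
      linarith
    gcongr
  have b4 : C0 * (2187 * ℓ ^ 7) * (N : ℝ) ^ (4 / 5 : ℝ) ≤ N / (8 * W ^ 3) := by
    have c1 : (N : ℝ) = (N : ℝ) ^ (4 / 5 : ℝ) * (N : ℝ) ^ (1 / 5 : ℝ) := by
      rw [← Real.rpow_add hN0]; norm_num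
    have c2 : 8 * 2187 * C0 * ℓ ^ 7 * W ^ 3 ≤ (N : ℝ) ^ (1 / 5 : ℝ) := by
      have hmN : (m : ℝ) ≤ N := by rw [hN]; nlinarith
      calc 8 * 2187 * C0 * ℓ ^ 7 * W ^ 3 ≤ (m : ℝ) ^ (1 / 10 : ℝ) * (m : ℝ) ^ (δ / 4) := by gcongr
        _ ≤ (m : ℝ) ^ (1 / 10 : ℝ) * (m : ℝ) ^ (1 / 10 : ℝ) :=
          mul_le_mul_of_nonneg_left (Real.rpow_le_rpow_of_exponent_le hm1 (by linarith)) (by positivity)
        _ = (m : ℝ) ^ (1 / 5 : ℝ) := by rw [← Real.rpow_add hm0]; norm_num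
        _ ≤ _ := Real.rpow_le_rpow hm0.le hmN (by norm_num)
    rw [le_div_iff₀ (by positivity)]
    calc C0 * (2187 * ℓ ^ 7) * (N : ℝ) ^ (4 / 5 : ℝ) * (8 * W ^ 3) =
          (N : ℝ) ^ (4 / 5 : ℝ) * (8 * 2187 * C0 * ℓ ^ 7 * W ^ 3) := by ring
      _ ≤ (N : ℝ) ^ (4 / 5 : ℝ) * (N : ℝ) ^ (1 / 5 : ℝ) := by gcongr
      _ = N := c1.symm
  have b5 : C0 * (2187 * ℓ ^ 7) * (3 * N / P) ≤ N / (8 * W ^ 3) := by
    have e : C0 * (2187 * ℓ ^ 7) * (3 * N / P) = (6561 * C0 / ℓ ^ 3) * (N / W ^ 3) := by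
      rw [hP]; field_simp; ring
    have e2 : (N : ℝ) / (8 * W ^ 3) = 1 / 8 * (N / W ^ 3) := by field_simp
    rw [e, e2]
    apply mul_le_mul_of_nonneg_right _ (by positivity)
    rw [div_le_div_iff₀ (by positivity) (by norm_num)]
    have : ℓ ≤ ℓ ^ 3 := by nlinarith [sq_nonneg ℓ, sq_nonneg (ℓ - 1)]
    linarith
  have b6 : 2 * (m : ℝ) ≤ N / (8 * W ^ 3) := by
    rw [le_div_iff₀ (by positivity), hN]
    have : 16 * W ^ 3 ≤ J := by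
      refine le_trans ?_ hJ1
      rw [hP]
      have a1 : 16 ≤ ℓ ^ 10 := by
        calc (16 : ℝ) ≤ ℓ := by linarith
          _ ≤ ℓ ^ 10 := le_self_pow₀ hℓ1 (by norm_num)
      have a2 : ℓ ^ 10 * W ^ 3 ≤ (ℓ ^ 10 * W ^ 3) ^ 2 := le_self_pow₀ hP1 (by norm_num)
      refine le_trans ?_ a2
      gcongr
    nlinarith
  have b7 : 2 * (N : ℝ) * (1 + 2 * ℓ) ^ 2 / Q ≤ N / (8 * W ^ 3) := by
    have a1 : (1 + 2 * ℓ) ^ 2 ≤ 9 * ℓ ^ 2 := by nlinarith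
    calc 2 * (N : ℝ) * (1 + 2 * ℓ) ^ 2 / Q ≤ 2 * N * (9 * ℓ ^ 2) / (P ^ 2 / 2) := by gcongr
      _ = (36 * ℓ ^ 2 / (ℓ ^ 20 * W ^ 3)) * (N / W ^ 3) := by rw [hP]; field_simp; ring
      _ ≤ (1 / 8) * (N / W ^ 3) := by
        apply mul_le_mul_of_nonneg_right _ (by positivity)
        rw [div_le_div_iff₀ (by positivity) (by norm_num)]
        have a2 : 288 ≤ ℓ ^ 18 := by
          calc (288 : ℝ) ≤ ℓ := hℓ4
            _ ≤ ℓ ^ 18 := le_self_pow₀ hℓ1 (by norm_num)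
        calc 36 * ℓ ^ 2 * 8 = 288 * ℓ ^ 2 * 1 := by ring
          _ ≤ ℓ ^ 18 * ℓ ^ 2 * W ^ 3 := by gcongr
          _ = _ := by ring
      _ = _ := by field_simp
  have b8 : C0 * (1 + Real.log N) ^ 7 * ((N : ℝ) / √Q + (N : ℝ) ^ (4 / 5 : ℝ) + (N : ℝ) / √((J : ℝ) + 1)) ≤
      C0 * (2187 * ℓ ^ 7) * (3 * N / P) + C0 * (2187 * ℓ ^ 7) * (N : ℝ) ^ (4 / 5 : ℝ) := by
    calc _ ≤ C0 * (2187 * ℓ ^ 7) * (2 * N / P + (N : ℝ) ^ (4 / 5 : ℝ) + N / P) := by gcongr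
      _ = _ := by ring
  have b9 : 4 * ((N : ℝ) / (8 * W ^ 3)) ≤ J * m / W ^ 3 := by
    calc 4 * ((N : ℝ) / (8 * W ^ 3)) = (N / 2) / W ^ 3 := by field_simp; ring
      _ ≤ J * m / W ^ 3 := by
        apply div_le_div_of_nonneg_right _ hW30.le
        linarith
  linarith

theorem analysis (δ : ℝ) (hδ : 0 < δ) (hδ1 : δ ≤ 1 / 8) : ∀ᶠ m : ℕ in atTop, ∀ (J : ℕ) (W : ℝ), 2 ≤ W →
    (Real.log m ^ 10 * W ^ 3) ^ 2 ≤ J → (J : ℝ) ≤ (m : ℝ) ^ (δ / 2) →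
    (∀ c ∈ range m, ((m / c.gcd m : ℕ) : ℝ) < (Real.log m ^ 10 * W ^ 3) ^ 2 →
      ‖∑ n ∈ range m, ((FF m J n : ℝ) : ℂ) * ee ((n : ℝ) * ((c : ℝ) / m))‖ ≤ (J : ℝ) * m / W ^ 3) →
    ∀ A : Finset ℕ, (∀ a ∈ A, a < m) → (m : ℝ) / W ≤ A.card →
    ∃ E : Finset ℕ, E ⊆ range m ∧ (E.card : ℝ) ≤ m / W ∧ ∀ b ∈ range m, b ∉ E →
      (1 - δ) * (1 / 4 - δ) * (Ab m b A).card - A.card / W ≤ (Gb m J b A).card := by
  obtain ⟨N₀, hN₀⟩ := eventually_atTop.1 (pnt_unif 1)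
  filter_upwards [sizes δ hδ hδ1, four_ana δ hδ hδ1, ev_L (4 / δ + 2048), eventually_ge_atTop 16,
    eventually_ge_atTop N₀, ev_log 0 3 ((1 - δ) / 4) (by linarith), phi_ev (1 / 16) (by norm_num),
    ev_log 2 96 (δ / 2) (by positivity)] with m hs hfour h1 hm16 hmN₀ h3 hphi h96 J W hW hJ1 hJ2 hsmall A hA hAc
  obtain ⟨hJ, hW3m, hN2, hLN, hLN2⟩ := hs J W hW hJ1 hJ2
  have hmr : (16 : ℝ) ≤ m := by exact_mod_cast hm16
  have hm0 : (0 : ℝ) < m := by linarith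
  have hm1 : (1 : ℝ) ≤ m := by linarith
  set ℓ := Real.log m with hℓ
  have hd1 : 0 < 4 / δ := by positivity
  have hℓ4 : 2048 ≤ ℓ := by linarith
  have hℓ1 : 1 ≤ ℓ := by linarith
  have hℓ0 : 0 < ℓ := by linarith
  have hW0 : 0 < W := by linarith
  have hW31 : 1 ≤ W ^ 3 := one_le_pow₀ (by linarith)
  have hW30 : 0 < W ^ 3 := by positivity
  have hJr : (1 : ℝ) ≤ J := by exact_mod_cast hJ
  have hJ0 : (0 : ℝ) < J := by linarith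
  rw [pow_zero, mul_one] at h3
  set D : ℕ := ⌊(m : ℝ) ^ ((1 - δ) / 4)⌋₊ with hD
  have hDle : (D : ℝ) ≤ (m : ℝ) ^ ((1 - δ) / 4) := Nat.floor_le (by positivity)
  have hD3 : 3 ≤ D := Nat.le_floor (by exact_mod_cast h3)
  have hDr : (3 : ℝ) ≤ D := by exact_mod_cast hD3
  have hDge : (m : ℝ) ^ ((1 - δ) / 4) ≤ 2 * D := by
    have := Nat.lt_floor_add_one ((m : ℝ) ^ ((1 - δ) / 4))
    rw [← hD] at this
    linarith
  have hDm : D ≤ m := by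
    have : (D : ℝ) ≤ m := by
      refine hDle.trans ?_
      calc (m : ℝ) ^ ((1 - δ) / 4) ≤ (m : ℝ) ^ (1 : ℝ) :=
            Real.rpow_le_rpow_of_exponent_le hm1 (by linarith)
        _ = m := Real.rpow_one _
    exact_mod_cast this
  have hlogD : (1 - 2 * δ) / 4 * ℓ ≤ Real.log D := by
    have a1 := Real.log_le_log (by positivity) hDge
    rw [Real.log_rpow hm0, Real.log_mul (by norm_num) (by linarith)] at a1
    have a2 := Real.log_two_lt_d9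
    have a3 : 1 ≤ δ * ℓ / 4 := by
      have : 4 / δ ≤ ℓ := by linarith
      rw [div_le_iff₀ hδ] at this
      linarith
    nlinarith
  have hlogD2 : 1 + 4 * Real.log D ≤ 2 * ℓ := by
    have a1 := Real.log_le_log (by linarith) hDle
    rw [Real.log_rpow hm0] at a1
    nlinarith
  have hlogD0 : 0 ≤ 1 + 4 * Real.log D := by
    have := Real.log_nonneg (show (1 : ℝ) ≤ D by linarith)
    linarith
  have hD4 : (D : ℝ) ^ 4 ≤ (m : ℝ) ^ (1 - δ) := by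
    calc (D : ℝ) ^ 4 ≤ ((m : ℝ) ^ ((1 - δ) / 4)) ^ 4 := pow_le_pow_left₀ (by positivity) hDle 4
      _ = _ := by
        rw [← Real.rpow_natCast, ← Real.rpow_mul hm0.le]
        congr 1; push_cast; ring
  set N : ℕ := (J + 1) * m with hNdef
  have hN : (N : ℝ) = (J + 1) * m := by rw [hNdef]; push_cast; ring
  have hN0 : (0 : ℝ) < N := by rw [hN]; positivity
  have hmN : m ≤ N := Nat.le_mul_of_pos_left m (by omega)
  have hLN1 : Real.log N ≤ 2 * ℓ := by nlinarith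
  have hLN0 : 0 < Real.log N := by linarith
  apply core (by omega) hJ hD3 hDm _ hA hW hAc _ _ hδ.le (by linarith) _ _
  · -- the totient function
    refine hphi.trans ?_
    refine le_trans ?_ hlogD
    nlinarith
  · -- the Fourier coefficients
    intro c hc
    by_cases hq : ((m / c.gcd m : ℕ) : ℝ) < (ℓ ^ 10 * W ^ 3) ^ 2
    · exact hsmall c hc hq
    · exact hfour J W hW hJ1 hJ2 c (not_lt.1 hq)
  · -- the variance
    have a1 : (1 + 4 * Real.log D) ^ 16 ≤ (2 * ℓ) ^ 16 := pow_le_pow_left₀ hlogD0 hlogD2 16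
    have a2 : Real.log N ^ 2 ≤ (2 * ℓ) ^ 2 := pow_le_pow_left₀ hLN0.le hLN1 2
    have hP0 : 0 < (ℓ ^ 10 * W ^ 3) ^ 2 := by positivity
    have a3 : (m : ℝ) / J ≤ m / (ℓ ^ 10 * W ^ 3) ^ 2 := by gcongr
    have a4 : 96 * ℓ ^ 2 * W ^ 3 ≤ (m : ℝ) ^ δ := by
      calc 96 * ℓ ^ 2 * W ^ 3 ≤ (m : ℝ) ^ (δ / 2) * (m : ℝ) ^ (δ / 4) := by gcongr
        _ = (m : ℝ) ^ (δ / 2 + δ / 4) := (Real.rpow_add hm0 _ _).symm
        _ ≤ (m : ℝ) ^ δ := Real.rpow_le_rpow_of_exponent_le hm1 (by linarith)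
    have a5 : 12 * ℓ ^ 2 * (m : ℝ) ^ (1 - δ) ≤ m / (8 * W ^ 3) := by
      rw [le_div_iff₀ (by positivity)]
      have e : (m : ℝ) = (m : ℝ) ^ (1 - δ) * (m : ℝ) ^ δ := by
        rw [← Real.rpow_add hm0]; simp
      calc 12 * ℓ ^ 2 * (m : ℝ) ^ (1 - δ) * (8 * W ^ 3) = (m : ℝ) ^ (1 - δ) * (96 * ℓ ^ 2 * W ^ 3) := by ring
        _ ≤ (m : ℝ) ^ (1 - δ) * (m : ℝ) ^ δ := by gcongr
        _ = m := e.symm
    have a6 : (m : ℝ) / (ℓ ^ 10 * W ^ 3) ^ 2 * (2 * ℓ) ^ 16 * (2 * ℓ) ^ 2 ≤ m / (8 * W ^ 3) := by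
      have e : (m : ℝ) / (ℓ ^ 10 * W ^ 3) ^ 2 * (2 * ℓ) ^ 16 * (2 * ℓ) ^ 2 =
          (2 ^ 18 / (ℓ ^ 2 * W ^ 3)) * (m / W ^ 3) := by field_simp
      have e2 : (m : ℝ) / (8 * W ^ 3) = 1 / 8 * (m / W ^ 3) := by field_simp
      rw [e, e2]
      apply mul_le_mul_of_nonneg_right _ (by positivity)
      rw [div_le_div_iff₀ (by positivity) (by norm_num)]
      have : (2 : ℝ) ^ 21 ≤ ℓ ^ 2 := by nlinarith
      calc (2 : ℝ) ^ 18 * 8 = 2 ^ 21 * 1 := by norm_num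
        _ ≤ ℓ ^ 2 * W ^ 3 := by gcongr
        _ = _ := by ring
    calc (3 * (D : ℝ) ^ 4 + m / J * (1 + 4 * Real.log D) ^ 16) * Real.log N ^ 2 ≤
          (3 * (m : ℝ) ^ (1 - δ) + m / (ℓ ^ 10 * W ^ 3) ^ 2 * (2 * ℓ) ^ 16) * (2 * ℓ) ^ 2 := by gcongr
      _ = 12 * ℓ ^ 2 * (m : ℝ) ^ (1 - δ) + m / (ℓ ^ 10 * W ^ 3) ^ 2 * (2 * ℓ) ^ 16 * (2 * ℓ) ^ 2 := by ring
      _ ≤ m / (8 * W ^ 3) + m / (8 * W ^ 3) := add_le_add a5 a6
      _ = _ := by ring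
  · -- the total mass
    have a1 := hN₀ N (hmN₀.trans hmN) N (by omega)
    have a2 := hN₀ N (hmN₀.trans hmN) m (by omega)
    rw [pow_one] at a1 a2
    have a3 : (N : ℝ) / Real.log N ≤ δ / 2 * (J * m) := by
      rw [div_le_iff₀ hLN0]
      have b1 : 4 ≤ δ * Real.log N := by
        have : 4 / δ ≤ Real.log N := by linarith
        rw [div_le_iff₀ hδ] at this
        linarith
      calc (N : ℝ) ≤ 2 * (J * m) := hN2
        _ = 1 / 2 * 4 * (J * m) := by ring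
        _ ≤ 1 / 2 * (δ * Real.log N) * (J * m) := by gcongr
        _ = _ := by ring
    unfold Th
    rw [← hNdef]
    rw [abs_le] at a1 a2
    have e : (N : ℝ) = J * m + m := by rw [hN]; ring
    linarith [a1.1, a2.2]
  · -- the logarithms
    calc (1 / 4 - δ) * Real.log N ≤ (1 / 4 - δ) * ((1 + δ) * ℓ) := by
          apply mul_le_mul_of_nonneg_left hLN (by linarith)
      _ ≤ (1 - 2 * δ) / 4 * ℓ := by nlinarith
      _ ≤ _ := hlogD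

end Pool.Agent.TH847.LM
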