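import Mathlib
import Pool.Agent.W301.SS.ModQ
import Pool.Agent.H373R2.T7.LamMaj

/-! Primes in the residue classes modulo `m`, the Fourier coefficients. -/

set_option autoImplicit false

namespace Pool.Agent.TH847.LM
open Finset Filter Pool.Agent.W301.SS Pool.Agent.H807R2.Dav
open scoped ArithmeticFunction.Moebius ArithmeticFunction.zeta

/-- `log p` for the primes `p > m` -/
noncomputable def wm (m n : ℕ) : ℝ := if m < n then om n else 0

/-- the sum of `log p` over the primes `p ≡ n (mod m)`, `m < p ≤ (J + 1) m` -/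
noncomputable def ff (m J n : ℕ) : ℝ := WA (wm m) ((J + 1) * m) m n

lemma wm_nonneg (m n : ℕ) : 0 ≤ wm m n := by
  unfold wm
  split_ifs
  · exact om_nonneg _
  · exact le_rfl

lemma ff_nonneg (m J n : ℕ) : 0 ≤ ff m J n := by
  unfold ff WA
  exact sum_nonneg fun _ _ => wm_nonneg _ _

lemma ff_per (m J n : ℕ) : ff m J (n + m) = ff m J n := WA_periodic _ _ _ _

lemma ff_congr {m J n k : ℕ} (h : n ≡ k [MOD m]) : ff m J n = ff m J k := by
  unfold ff WA
  apply sum_congr _ (fun _ _ => rfl)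
  apply filter_congr
  intro a _
  exact ⟨fun h1 => h1.trans h, fun h1 => h1.trans h.symm⟩

lemma ff_eq {m J n : ℕ} (hn : n ∈ Ioc 0 m) : ff m J n = ∑ h ∈ Ioc 0 J, om (n + h * m) := by
  classical
  rw [mem_Ioc] at hn
  have hm : 0 < m := by omega
  unfold ff WA
  have hinj : Set.InjOn (fun h : ℕ => n + h * m) (Ioc 0 J : Finset ℕ) := by
    intro h _ h' _ he
    have : h * m = h' * m := Nat.add_left_cancel he
    exact Nat.eq_of_mul_eq_mul_right hm this
  rw [← sum_image (f := om) hinj]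
  symm
  have h1 : ∑ k ∈ (Ioc 0 J).image (fun h : ℕ => n + h * m), om k =
      ∑ k ∈ (Ioc 0 J).image (fun h : ℕ => n + h * m), wm m k := by
    apply sum_congr rfl
    intro k hk
    rw [mem_image] at hk
    obtain ⟨h, hh, rfl⟩ := hk
    rw [mem_Ioc] at hh
    have h2 : m ≤ h * m := Nat.le_mul_of_pos_left m hh.1
    unfold wm
    rw [if_pos (by omega)]
  rw [h1]
  apply sum_subset
  · intro k hk
    rw [mem_image] at hk
    obtain ⟨h, hh, rfl⟩ := hk
    rw [mem_Ioc] at hh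
    rw [mem_filter, mem_Icc]
    refine ⟨⟨by omega, ?_⟩, ?_⟩
    · have : h * m ≤ J * m := Nat.mul_le_mul_right m hh.2
      have e : (J + 1) * m = J * m + m := by ring
      omega
    · unfold Nat.ModEq
      rw [Nat.add_mul_mod_self_right]
  · intro k hk hk2
    rw [mem_filter, mem_Icc] at hk
    unfold wm
    rw [if_neg]
    intro hmk
    apply hk2
    have hd : m ∣ k - n := (Nat.modEq_iff_dvd' (by omega)).1 hk.2.symm
    obtain ⟨h, hh⟩ := hd
    rw [mem_image]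
    refine ⟨h, ?_, ?_⟩
    · rw [mem_Ioc]
      constructor
      · rcases Nat.eq_zero_or_pos h with h0 | h0
        · rw [h0, mul_zero] at hh; omega
        · exact h0
      · by_contra hc
        have : m * (J + 1) ≤ m * h := Nat.mul_le_mul_left m (by omega)
        have e : (J + 1) * m = m * (J + 1) := by ring
        omega
    · have e : h * m = m * h := by ring
      omega

lemma ff_prime {m J n : ℕ} (h : ff m J n ≠ 0) : ∃ p : ℕ, p.Prime ∧ p ≡ n [MOD m] ∧ m < p ∧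
    p ≤ (J + 1) * m := by
  unfold ff WA at h
  obtain ⟨p, hp, hp2⟩ := exists_ne_zero_of_sum_ne_zero h
  rw [mem_filter, mem_Icc] at hp
  unfold wm om at hp2
  split_ifs at hp2 with h1 h2
  · exact ⟨p, h2, hp.2, h1, hp.1.2⟩
  · exact absurd rfl hp2
  · exact absurd rfl hp2

lemma ff_cop {m J n : ℕ} (hm : 0 < m) (h : ff m J n ≠ 0) : n.Coprime m := by
  obtain ⟨p, hp, h1, h2, _⟩ := ff_prime h
  have h3 : p.Coprime m := by
    rw [Nat.Prime.coprime_iff_not_dvd hp]
    intro hd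
    have := Nat.le_of_dvd hm hd
    omega
  unfold Nat.Coprime at h3 ⊢
  rw [← h1.gcd_eq]
  exact h3

lemma wm_sum (m J : ℕ) (F : ℕ → ℂ) : ∑ k ∈ Icc 1 ((J + 1) * m), ((wm m k : ℝ) : ℂ) * F k =
    ∑ k ∈ Icc 1 ((J + 1) * m), ((om k : ℝ) : ℂ) * F k - ∑ k ∈ Icc 1 m, ((om k : ℝ) : ℂ) * F k := by
  have hm : m ≤ (J + 1) * m := Nat.le_mul_of_pos_left m (by omega)
  have h1 : Icc 1 ((J + 1) * m) = Icc 1 m ∪ Ioc m ((J + 1) * m) := by
    ext i; simp only [mem_union, mem_Icc, mem_Ioc]; omega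
  have h2 : Disjoint (Icc 1 m) (Ioc m ((J + 1) * m)) := by
    rw [disjoint_left]; intro i hi hi'
    rw [mem_Icc] at hi; rw [mem_Ioc] at hi'; omega
  rw [h1, sum_union h2, sum_union h2, add_sub_cancel_left]
  have h3 : ∑ k ∈ Icc 1 m, ((wm m k : ℝ) : ℂ) * F k = 0 := by
    apply sum_eq_zero
    intro k hk
    rw [mem_Icc] at hk
    unfold wm
    rw [if_neg (by omega)]
    simp
  rw [h3, zero_add]
  apply sum_congr rfl
  intro k hk
  rw [mem_Ioc] at hk
  unfold wm
  rw [if_pos hk.1]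

/-- the total mass -/
noncomputable def Th (m J : ℕ) : ℝ := Chebyshev.theta (((J + 1) * m : ℕ) : ℝ) - Chebyshev.theta (m : ℝ)

lemma Th_nonneg (m J : ℕ) : 0 ≤ Th m J := by
  unfold Th
  apply sub_nonneg.2
  apply Chebyshev.theta_mono
  have : m ≤ (J + 1) * m := Nat.le_mul_of_pos_left m (by omega)
  exact_mod_cast this

lemma Th_le (m J : ℕ) : Th m J ≤ 2 * ((J + 1) * m : ℕ) := by
  unfold Th
  have h1 := Chebyshev.theta_le_log4_mul_x (x := (((J + 1) * m : ℕ) : ℝ)) (Nat.cast_nonneg _)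
  have h2 := Chebyshev.theta_nonneg (m : ℝ)
  have h3 : Real.log 4 * (((J + 1) * m : ℕ) : ℝ) ≤ 2 * (((J + 1) * m : ℕ) : ℝ) :=
    mul_le_mul_of_nonneg_right log4 (Nat.cast_nonneg _)
  linarith

/-- the deviation -/
noncomputable def FF (m J n : ℕ) : ℝ :=
  ff m J n - Th m J / Nat.totient m * (if n.Coprime m then 1 else 0)

lemma FF_per (m J n : ℕ) : FF m J (n + m) = FF m J n := by
  unfold FF
  rw [ff_per]
  have : (n + m).Coprime m ↔ n.Coprime m := by
    unfold Nat.Coprime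
    rw [Nat.gcd_add_self_left]
  simp only [this]

/-- the sum over the reduced residues -/
noncomputable def RR (m c : ℕ) : ℂ :=
  ∑ n ∈ range m, (if n.Coprime m then (1 : ℂ) else 0) * ee ((n : ℝ) * ((c : ℝ) / m))

lemma dft_FF {m : ℕ} (hm : 1 ≤ m) (J c : ℕ) :
    ∑ n ∈ range m, ((FF m J n : ℝ) : ℂ) * ee ((n : ℝ) * ((c : ℝ) / m)) =
      SP ((J + 1) * m) ((c : ℝ) / m) - SP m ((c : ℝ) / m) -
        ((Th m J / Nat.totient m : ℝ) : ℂ) * RR m c := by
  have h1 := dft_AP (wm m) ((J + 1) * m) m c hm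
  have h2 := wm_sum m J (fun k => ee ((k : ℝ) * ((c : ℝ) / m)))
  rw [h2] at h1
  unfold SP RR
  rw [← h1, mul_sum, ← sum_sub_distrib]
  apply sum_congr rfl
  intro n _
  unfold FF ff
  push_cast
  split_ifs <;> simp only [Complex.ofReal_one, Complex.ofReal_zero] <;> ring

/-- the indicator function of the integers prime to `m` -/
lemma cop_moebius {m : ℕ} (hm : 0 < m) (n : ℕ) : (if n.Coprime m then (1 : ℂ) else 0) =
    ∑ d ∈ m.divisors, if d ∣ n then ((μ d : ℤ) : ℂ) else 0 := by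
  have h1 : m.divisors.filter (fun d => d ∣ n) = (n.gcd m).divisors := by
    ext d
    rw [mem_filter, Nat.mem_divisors, Nat.mem_divisors, Nat.dvd_gcd_iff]
    have h2 : n.gcd m ≠ 0 := (Nat.gcd_pos_of_pos_right n hm).ne'
    constructor
    · rintro ⟨⟨a, _⟩, b⟩
      exact ⟨⟨b, a⟩, h2⟩
    · rintro ⟨⟨a, b⟩, _⟩
      exact ⟨⟨b, hm.ne'⟩, a⟩
  rw [← sum_filter, h1]
  have h3 : ∑ d ∈ (n.gcd m).divisors, μ d = if n.gcd m = 1 then 1 else 0 := by
    rw [← ArithmeticFunction.coe_mul_zeta_apply, ArithmeticFunction.moebius_mul_coe_zeta,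
      ArithmeticFunction.one_apply]
  have h4 : ∑ d ∈ (n.gcd m).divisors, ((μ d : ℤ) : ℂ) = ((∑ d ∈ (n.gcd m).divisors, μ d : ℤ) : ℂ) := by
    push_cast
    rfl
  rw [h4, h3]
  unfold Nat.Coprime
  split_ifs <;> simp

lemma RR_eq {m : ℕ} (hm : 0 < m) (c : ℕ) : RR m c =
    ∑ d ∈ m.divisors, ((μ d : ℤ) : ℂ) * (if (m / d) ∣ c then ((m / d : ℕ) : ℂ) else 0) := by
  unfold RR
  have h1 : ∀ n ∈ range m, (if n.Coprime m then (1 : ℂ) else 0) * ee ((n : ℝ) * ((c : ℝ) / m)) =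
      ∑ d ∈ m.divisors, ((μ d : ℤ) : ℂ) * (if d ∣ n then ee ((n : ℝ) * ((c : ℝ) / m)) else 0) := by
    intro n _
    rw [cop_moebius hm, sum_mul]
    apply sum_congr rfl
    intro d _
    split_ifs <;> simp
  rw [sum_congr rfl h1, sum_comm]
  apply sum_congr rfl
  intro d hd
  rw [← mul_sum]
  congr 1
  have hdm := Nat.dvd_of_mem_divisors hd
  have hd0 := Nat.pos_of_mem_divisors hd
  obtain ⟨M, hM⟩ := hdm
  have hM0 : 0 < M := by
    rcases Nat.eq_zero_or_pos M with h | h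
    · rw [h, mul_zero] at hM; omega
    · exact h
  have hMd : m / d = M := by rw [hM]; exact Nat.mul_div_cancel_left M hd0
  rw [hMd, ← sum_filter]
  have h2 : (range m).filter (fun n => d ∣ n) = (range M).image (fun j => d * j) := by
    ext n
    rw [mem_filter, mem_range, mem_image]
    constructor
    · rintro ⟨h3, ⟨j, rfl⟩⟩
      refine ⟨j, ?_, rfl⟩
      rw [mem_range]
      rw [hM] at h3
      exact Nat.lt_of_mul_lt_mul_left h3
    · rintro ⟨j, hj, rfl⟩
      rw [mem_range] at hj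
      refine ⟨?_, Dvd.intro j rfl⟩
      rw [hM]
      exact Nat.mul_lt_mul_of_pos_left hj hd0
  rw [h2, sum_image (fun a _ b _ h => Nat.eq_of_mul_eq_mul_left hd0 h)]
  have h3 := orth (M := M) hM0 (c : ℤ)
  have h4 : ∀ j ∈ range M, ee (((d * j : ℕ) : ℝ) * ((c : ℝ) / m)) =
      ee ((((c : ℤ)) : ℝ) * ((j : ℝ) / M)) := by
    intro j _
    congr 1
    have a1 : (d : ℝ) ≠ 0 := by exact_mod_cast hd0.ne'
    have a2 : (M : ℝ) ≠ 0 := by exact_mod_cast hM0.ne'
    rw [hM]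
    push_cast
    field_simp
  rw [sum_congr rfl h4, h3]
  simp only [Int.natCast_dvd_natCast]

lemma RR_le {m : ℕ} (hm : 0 < m) (c : ℕ) :
    ‖RR m c‖ ≤ (c.gcd m : ℝ) * (1 + Real.log m) := by
  rw [RR_eq hm]
  refine (norm_sum_le _ _).trans ?_
  have h1 : ∀ d ∈ m.divisors, ‖((μ d : ℤ) : ℂ) * (if (m / d) ∣ c then ((m / d : ℕ) : ℂ) else 0)‖ ≤
      if (m / d) ∣ c then ((m / d : ℕ) : ℝ) else 0 := by
    intro d _
    rw [norm_mul]
    have h2 : ‖((μ d : ℤ) : ℂ)‖ ≤ 1 := by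
      rw [Complex.norm_intCast]
      exact_mod_cast ArithmeticFunction.abs_moebius_le_one
    split_ifs
    · rw [Complex.norm_natCast]
      calc _ ≤ 1 * ((m / d : ℕ) : ℝ) := by gcongr
        _ = _ := one_mul _
    · simp
  refine (sum_le_sum h1).trans ?_
  have h2 : ∑ d ∈ m.divisors, (if (m / d) ∣ c then ((m / d : ℕ) : ℝ) else 0) =
      ∑ e ∈ m.divisors, (if e ∣ c then (e : ℝ) else 0) :=
    Nat.sum_div_divisors m (fun e => if e ∣ c then (e : ℝ) else 0)
  rw [h2, ← sum_filter]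
  set g := c.gcd m with hg
  have hg0 : 0 < g := Nat.gcd_pos_of_pos_right c hm
  have h3 : m.divisors.filter (fun e => e ∣ c) ⊆ g.divisors := by
    intro e he
    rw [mem_filter, Nat.mem_divisors] at he
    rw [Nat.mem_divisors]
    exact ⟨Nat.dvd_gcd he.2 he.1.1, hg0.ne'⟩
  refine (sum_le_sum_of_subset_of_nonneg h3 fun _ _ _ => Nat.cast_nonneg _).trans ?_
  have h4 : ∑ e ∈ g.divisors, (e : ℝ) = ∑ e ∈ g.divisors, (g : ℝ) * (e : ℝ)⁻¹ := by
    rw [← Nat.sum_div_divisors g (fun e => (e : ℝ))]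
    apply sum_congr rfl
    intro e he
    rw [Nat.cast_div (Nat.dvd_of_mem_divisors he)
      (by exact_mod_cast (Nat.pos_of_mem_divisors he).ne'), div_eq_mul_inv]
  rw [h4, ← mul_sum]
  apply mul_le_mul_of_nonneg_left _ (Nat.cast_nonneg _)
  have h5 : ∑ e ∈ g.divisors, (e : ℝ)⁻¹ ≤ ∑ e ∈ Icc 1 m, (e : ℝ)⁻¹ := by
    apply sum_le_sum_of_subset_of_nonneg
    · intro e he
      rw [mem_Icc]
      have h6 := Nat.divisor_le he
      have h7 : g ≤ m := Nat.le_of_dvd hm (Nat.gcd_dvd_right _ _)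
      exact ⟨Nat.pos_of_mem_divisors he, h6.trans h7⟩
    · intro _ _ _; positivity
  refine h5.trans ?_
  have h6 := harmonic_le_one_add_log m
  rw [harmonic_eq_sum_Icc] at h6
  push_cast at h6
  exact h6

end Pool.Agent.TH847.LM
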