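import Mathlib

/-! Reduced residues modulo `m` in the classes modulo a divisor of `m`. -/

set_option autoImplicit false

namespace Pool.Agent.TH847.LM
open Finset

lemma fib {m q : ℕ} [NeZero m] [NeZero q] (h : q ∣ m) (y : (ZMod q)ˣ) :
    (univ.filter (fun x : (ZMod m)ˣ => ZMod.unitsMap h x = y)).card * Nat.totient q =
      Nat.totient m := by
  classical
  have h1 : ∀ y' : (ZMod q)ˣ, (univ.filter (fun x : (ZMod m)ˣ => ZMod.unitsMap h x = y')).card =
      (univ.filter (fun x : (ZMod m)ˣ => ZMod.unitsMap h x = y)).card := fun y' =>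
    MonoidHom.card_fiber_eq_of_mem_range (ZMod.unitsMap h)
      (ZMod.unitsMap_surjective h y') (ZMod.unitsMap_surjective h y)
  have h2 : (univ : Finset (ZMod m)ˣ).card = ∑ y' ∈ (univ : Finset (ZMod q)ˣ),
      (univ.filter (fun x : (ZMod m)ˣ => ZMod.unitsMap h x = y')).card :=
    card_eq_sum_card_fiberwise (fun x _ => mem_coe.2 (mem_univ _))
  rw [sum_congr rfl (fun y' _ => h1 y'), sum_const, card_univ, card_univ, ZMod.card_units_eq_totient,
    ZMod.card_units_eq_totient, smul_eq_mul] at h2
  rw [h2, mul_comm]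

/-- the number of reduced residues `n < m` with `n mod q = r` -/
lemma cnt_fib {m q r : ℕ} (hm : 0 < m) (h : q ∣ m) (hr : r < q) :
    ((range m).filter (fun n => n % q = r ∧ n.Coprime m)).card * Nat.totient q =
      if r.Coprime q then Nat.totient m else 0 := by
  classical
  have : NeZero m := ⟨hm.ne'⟩
  have hq : 0 < q := Nat.pos_of_dvd_of_pos h hm
  have : NeZero q := ⟨hq.ne'⟩
  split_ifs with hc
  · rw [← fib h (ZMod.unitOfCoprime r hc)]
    congr 1
    refine card_bij (fun n hn => ZMod.unitOfCoprime n (mem_filter.1 hn).2.2) ?_ ?_ ?_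
    · intro n hn
      rw [mem_filter] at hn
      rw [mem_filter]
      refine ⟨mem_univ _, Units.ext ?_⟩
      rw [ZMod.unitsMap_val, ZMod.coe_unitOfCoprime, ZMod.coe_unitOfCoprime]
      rw [ZMod.cast_natCast h]
      rw [← hn.2.1]
      exact (ZMod.natCast_mod n q).symm
    · intro n hn n' hn' he
      rw [mem_filter, mem_range] at hn hn'
      have h1 := congrArg Units.val he
      rw [ZMod.coe_unitOfCoprime, ZMod.coe_unitOfCoprime] at h1
      rw [ZMod.natCast_eq_natCast_iff] at h1
      exact Nat.ModEq.eq_of_lt_of_lt h1 hn.1 hn'.1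
    · intro u hu
      rw [mem_filter] at hu
      have h1 : (u.val.val).Coprime m := ZMod.val_coe_unit_coprime u
      refine ⟨u.val.val, ?_, ?_⟩
      · rw [mem_filter, mem_range]
        refine ⟨ZMod.val_lt _, ?_, h1⟩
        have h2 := congrArg Units.val hu.2
        rw [ZMod.unitsMap_val, ZMod.coe_unitOfCoprime] at h2
        have h3 : ((u.val.val : ℕ) : ZMod q) = (r : ZMod q) := by
          rw [← h2]
          conv_rhs => rw [← ZMod.natCast_zmod_val u.val]
          rw [ZMod.cast_natCast h]
        rw [ZMod.natCast_eq_natCast_iff] at h3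
        unfold Nat.ModEq at h3
        rw [Nat.mod_eq_of_lt hr] at h3
        exact h3
      · apply Units.ext
        rw [ZMod.coe_unitOfCoprime]
        exact ZMod.natCast_zmod_val u.val
  · rw [Nat.mul_eq_zero]
    left
    rw [card_eq_zero, filter_eq_empty_iff]
    rintro n _ ⟨h1, h2⟩
    apply hc
    have h3 : n.Coprime q := Nat.Coprime.coprime_dvd_right h h2
    unfold Nat.Coprime at h3 ⊢
    rw [← h1, (Nat.mod_modEq n q).gcd_eq]
    exact h3

end Pool.Agent.TH847.LM
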