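import Pool.Agent.TH847.LM.Cls
import Pool.Agent.TH847.LM.Fib

/-! Bounds for the Fourier coefficients. -/

set_option autoImplicit false

namespace Pool.Agent.TH847.LM
open Finset Filter Pool.Agent.W301.SS Pool.Agent.H807R2.Dav

lemma prod_low (S : Finset ℕ) (hS : ∀ p ∈ S, 2 ≤ p) :
    (1 : ℚ) / (S.card + 1) ≤ ∏ p ∈ S, (1 - (p : ℚ)⁻¹) := by
  induction S using Finset.induction_on_max with
  | empty => simp
  | insert a s hmax ih =>
    have ha : a ∉ s := fun h => (hmax a h).false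
    rw [prod_insert ha, card_insert_of_notMem ha]
    have h1 := ih fun p hp => hS p (mem_insert_of_mem hp)
    have h2 : 2 ≤ a := hS a (mem_insert_self _ _)
    have h3 : s.card ≤ a - 2 := by
      have : s ⊆ Ico 2 a := by
        intro p hp
        rw [mem_Ico]
        exact ⟨hS p (mem_insert_of_mem hp), hmax p hp⟩
      have := card_le_card this
      rwa [Nat.card_Ico] at this
    have h4 : (s.card : ℚ) + 2 ≤ a := by
      exact_mod_cast (by omega : s.card + 2 ≤ a)
    have hc : (0 : ℚ) ≤ s.card := Nat.cast_nonneg _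
    have h5 : (a : ℚ)⁻¹ ≤ 1 / (s.card + 2) := by
      rw [← one_div]
      exact one_div_le_one_div_of_le (by linarith) h4
    have h6 : ((s.card : ℚ) + 1) / (s.card + 2) ≤ 1 - (a : ℚ)⁻¹ := by
      have : ((s.card : ℚ) + 1) / (s.card + 2) = 1 - 1 / (s.card + 2) := by
        field_simp
        ring
      rw [this]
      linarith
    calc (1 : ℚ) / ((s.card + 1 : ℕ) + 1) = ((s.card : ℚ) + 1) / (s.card + 2) * (1 / (s.card + 1)) := by
          push_cast
          field_simp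
          ring
      _ ≤ (1 - (a : ℚ)⁻¹) * ∏ p ∈ s, (1 - (p : ℚ)⁻¹) := by
          apply mul_le_mul h6 h1 (by positivity)
          refine le_trans (by positivity) h6

lemma phi_low (q : ℕ) (hq : 1 ≤ q) : (q : ℝ) ≤ (1 + 2 * Real.log q) * Nat.totient q := by
  have h1 := prod_low q.primeFactors (fun p hp => (Nat.prime_of_mem_primeFactors hp).two_le)
  have h2 := Nat.totient_eq_mul_prod_factors q
  have h3 : (q : ℚ) ≤ (q.primeFactors.card + 1) * Nat.totient q := by
    rw [h2]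
    rw [div_le_iff₀ (by positivity)] at h1
    have h0 : (0 : ℚ) ≤ q := Nat.cast_nonneg _
    nlinarith
  have h4 : (q : ℝ) ≤ (q.primeFactors.card + 1) * Nat.totient q := by exact_mod_cast h3
  have h5 : (q.primeFactors.card : ℝ) ≤ 2 * Real.log q := by
    have h8 : 2 ^ q.primeFactors.card ≤ q := by
      calc 2 ^ q.primeFactors.card = ∏ p ∈ q.primeFactors, 2 := by rw [prod_const]
        _ ≤ ∏ p ∈ q.primeFactors, p := prod_le_prod' fun p hp => (Nat.prime_of_mem_primeFactors hp).two_le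
        _ ≤ q := Nat.le_of_dvd (by omega) (Nat.prod_primeFactors_dvd q)
    have q1 : (2 : ℝ) ^ q.primeFactors.card ≤ q := by exact_mod_cast h8
    have q2 := Real.log_le_log (by positivity) q1
    rw [Real.log_pow] at q2
    have q3 : (1 : ℝ) / 2 ≤ Real.log 2 := by linarith [Real.log_two_gt_d9]
    nlinarith [(Nat.cast_nonneg q.primeFactors.card : (0 : ℝ) ≤ (q.primeFactors.card : ℝ))]
  refine h4.trans ?_
  apply mul_le_mul_of_nonneg_right _ (Nat.cast_nonneg _)
  linarith

/-- large denominators -/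
theorem four_large : ∃ C : ℝ, 0 < C ∧ ∀ m J c Q : ℕ, 1 ≤ m → 1 ≤ Q → Q * (c.gcd m) ≤ m →
    ‖∑ n ∈ range m, ((FF m J n : ℝ) : ℂ) * ee ((n : ℝ) * ((c : ℝ) / m))‖ ≤
      C * (1 + Real.log ((J + 1) * m : ℕ)) ^ 7 *
        ((((J + 1) * m : ℕ) : ℝ) / √Q + (((J + 1) * m : ℕ) : ℝ) ^ (4 / 5 : ℝ) +
          (((J + 1) * m : ℕ) : ℝ) / √((J : ℝ) + 1)) + 2 * m +
      2 * (((J + 1) * m : ℕ) : ℝ) * (1 + 2 * Real.log m) ^ 2 / Q := by
  obtain ⟨C, hC, hv⟩ := vinoP
  refine ⟨C, hC, fun m J c Q hm hQ hQm => ?_⟩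
  set N : ℕ := (J + 1) * m with hN
  have hN1 : 1 ≤ N := Nat.mul_pos (by omega) hm
  have hmr : (0 : ℝ) < m := by exact_mod_cast hm
  have hm1 : (1 : ℝ) ≤ m := by exact_mod_cast hm
  have hNr : (0 : ℝ) < N := by exact_mod_cast hN1
  have hN1r : (1 : ℝ) ≤ N := by exact_mod_cast hN1
  have hQr : (0 : ℝ) < Q := by exact_mod_cast hQ
  set g := c.gcd m with hg
  have hg0 : 0 < g := Nat.gcd_pos_of_pos_right c hm
  obtain ⟨c', hc'⟩ : g ∣ c := Nat.gcd_dvd_left _ _
  obtain ⟨q, hq⟩ : g ∣ m := Nat.gcd_dvd_right _ _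
  have hq0 : 0 < q := by
    rcases Nat.eq_zero_or_pos q with h | h
    · rw [h, mul_zero] at hq; omega
    · exact h
  have hcop : Nat.Coprime c' q := by
    have h1 : Nat.gcd (g * c') (g * q) = g := by rw [← hc', ← hq]
    rw [Nat.gcd_mul_left] at h1
    exact Nat.eq_of_mul_eq_mul_left hg0 (by rw [h1, mul_one])
  have hQq : Q ≤ q := by
    have : g * Q ≤ g * q := by rw [← hq]; rw [mul_comm]; exact hQm
    exact Nat.le_of_mul_le_mul_left this hg0
  have hqm : q ≤ m := by
    rw [hq]; exact Nat.le_mul_of_pos_left q hg0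
  have hgr : (0 : ℝ) < g := by exact_mod_cast hg0
  have hqr : (0 : ℝ) < q := by exact_mod_cast hq0
  have hα : (c : ℝ) / m = (c' : ℤ) / (q : ℝ) := by
    rw [hc', hq]
    push_cast
    field_simp
  have hQqr : (Q : ℝ) ≤ q := by exact_mod_cast hQq
  have hqmr : (q : ℝ) ≤ m := by exact_mod_cast hqm
  have h1 := hv N q hN1 hq0 (c' : ℤ) (Nat.isCoprime_iff_coprime.2 hcop) ((c : ℝ) / m) (by
    rw [hα, sub_self, abs_zero]; positivity)
  have hVB : VB N q ≤ (N : ℝ) / √Q + (N : ℝ) ^ (4 / 5 : ℝ) + (N : ℝ) / √((J : ℝ) + 1) := by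
    unfold VB
    have a1 : (N : ℝ) / √q ≤ (N : ℝ) / √Q := by
      have : 0 < √(Q : ℝ) := Real.sqrt_pos.2 hQr
      gcongr
    have a2 : √((N : ℝ) * q) ≤ (N : ℝ) / √((J : ℝ) + 1) := by
      have hJ : (0 : ℝ) < (J : ℝ) + 1 := by positivity
      have e : (N : ℝ) / √((J : ℝ) + 1) = √((N : ℝ) * m) := by
        have e2 : (N : ℝ) * m = (N : ℝ) ^ 2 / ((J : ℝ) + 1) := by
          have e3 : (N : ℝ) = ((J : ℝ) + 1) * m := by rw [hN]; push_cast; ring
          rw [eq_div_iff hJ.ne']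
          rw [sq]
          nth_rewrite 3 [e3]
          ring
        rw [e2, Real.sqrt_div (by positivity), Real.sqrt_sq hNr.le]
      rw [e]
      apply Real.sqrt_le_sqrt
      gcongr
    linarith
  have h2 := SP_le m ((c : ℝ) / m)
  have h3 := RR_le (m := m) hm c
  have hlogm : 0 ≤ Real.log m := Real.log_nonneg hm1
  have hφ : 0 < Nat.totient m := Nat.totient_pos.2 hm
  have hφr : (0 : ℝ) < Nat.totient m := by exact_mod_cast hφ
  have h4 : ‖((Th m J / Nat.totient m : ℝ) : ℂ) * RR m c‖ ≤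
      2 * (N : ℝ) * (1 + 2 * Real.log m) ^ 2 / Q := by
    rw [norm_mul, Complex.norm_real, Real.norm_eq_abs,
      abs_of_nonneg (div_nonneg (Th_nonneg m J) hφr.le)]
    have b1 := Th_le m J
    rw [← hN] at b1
    have b2 := phi_low m hm
    have b3 : 1 / (Nat.totient m : ℝ) ≤ (1 + 2 * Real.log m) / m := by
      rw [div_le_div_iff₀ hφr hmr]
      linarith
    have b4 : (g : ℝ) / m ≤ 1 / Q := by
      rw [div_le_div_iff₀ hmr hQr]
      have : (Q : ℝ) * g ≤ m := by exact_mod_cast hQm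
      linarith
    calc Th m J / (Nat.totient m : ℝ) * ‖RR m c‖ = Th m J * (1 / (Nat.totient m : ℝ)) * ‖RR m c‖ := by ring
      _ ≤ (2 * N) * ((1 + 2 * Real.log m) / m) * ((g : ℝ) * (1 + Real.log m)) := by gcongr
      _ = 2 * N * ((1 + 2 * Real.log m) * (1 + Real.log m)) * ((g : ℝ) / m) := by ring
      _ ≤ 2 * N * ((1 + 2 * Real.log m) * (1 + 2 * Real.log m)) * (1 / Q) := by
        gcongr
        linarith
      _ = _ := by ring
  rw [dft_FF hm J c]
  refine (norm_sub_le _ _).trans ?_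
  refine add_le_add ((norm_sub_le _ _).trans (add_le_add ?_ h2)) h4
  refine h1.trans ?_
  have hl : 0 ≤ Real.log (N : ℝ) := Real.log_nonneg hN1r
  gcongr

lemma om_diff (y q r : ℕ) : |∑ k ∈ (Icc 1 y).filter (fun k => k ≡ r [MOD q]), om k -
    ∑ k ∈ (Icc 1 y).filter (fun k => k ≡ r [MOD q]), ArithmeticFunction.vonMangoldt k| ≤
    2 * √(y : ℝ) * Real.log y := by
  rcases Nat.eq_zero_or_pos y with h0 | hy
  · subst h0
    simp
  rw [← sum_sub_distrib]
  refine (abs_sum_le_sum_abs _ _).trans ?_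
  have h1 : ∑ k ∈ (Icc 1 y).filter (fun k => k ≡ r [MOD q]), |om k - ArithmeticFunction.vonMangoldt k| ≤
      ∑ k ∈ Icc 1 y, (ArithmeticFunction.vonMangoldt k - om k) := by
    have h2 : ∀ k, |om k - ArithmeticFunction.vonMangoldt k| = ArithmeticFunction.vonMangoldt k - om k := by
      intro k
      rw [abs_sub_comm, abs_of_nonneg (sub_nonneg.2 (om_le k))]
    simp_rw [h2]
    exact sum_le_sum_of_subset_of_nonneg (filter_subset _ _) (fun k _ _ => sub_nonneg.2 (om_le k))
  refine h1.trans ?_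
  rw [sum_sub_distrib, sum_om, sum_Lam]
  exact Chebyshev.psi_sub_theta_le (by exact_mod_cast hy)

/-- the primes in `(m, (J + 1) m]` in a class modulo a divisor of `m` -/
lemma ff_class {m q : ℕ} (hm : 0 < m) (hqm : q ∣ m) (J r : ℕ) (hr : r < q) :
    ∑ n ∈ (range m).filter (fun n => n % q = r), ff m J n =
      ∑ k ∈ (Icc 1 ((J + 1) * m)).filter (fun k => k ≡ r [MOD q]), om k -
        ∑ k ∈ (Icc 1 m).filter (fun k => k ≡ r [MOD q]), om k := by
  classical
  have hmN : m ≤ (J + 1) * m := Nat.le_mul_of_pos_left m (by omega)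
  have h1 : ∑ n ∈ (range m).filter (fun n => n % q = r), ff m J n =
      ∑ k ∈ (Icc 1 ((J + 1) * m)).filter (fun k => k ≡ r [MOD q]), wm m k := by
    rw [← sum_fiberwise_of_maps_to (s := (Icc 1 ((J + 1) * m)).filter (fun k => k ≡ r [MOD q]))
      (t := (range m).filter (fun n => n % q = r)) (g := fun k => k % m)]
    · apply sum_congr rfl
      intro n hn
      rw [mem_filter, mem_range] at hn
      unfold ff WA
      apply sum_congr _ (fun _ _ => rfl)
      ext k
      simp only [mem_filter]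
      constructor
      · rintro ⟨h2, h3⟩
        have h4 : k % m = n := by
          unfold Nat.ModEq at h3
          rw [h3, Nat.mod_eq_of_lt hn.1]
        refine ⟨⟨h2, ?_⟩, h4⟩
        unfold Nat.ModEq
        rw [Nat.mod_eq_of_lt hr, ← hn.2, ← h4, Nat.mod_mod_of_dvd _ hqm]
      · rintro ⟨⟨h2, _⟩, h4⟩
        refine ⟨h2, ?_⟩
        unfold Nat.ModEq
        rw [Nat.mod_eq_of_lt hn.1]
        exact h4
    · intro k hk
      rw [mem_filter] at hk
      rw [mem_filter, mem_range]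
      refine ⟨Nat.mod_lt _ hm, ?_⟩
      rw [Nat.mod_mod_of_dvd _ hqm]
      have := hk.2
      unfold Nat.ModEq at this
      rwa [Nat.mod_eq_of_lt hr] at this
  rw [h1]
  have h2 : (Icc 1 ((J + 1) * m)).filter (fun k => k ≡ r [MOD q]) =
      (Icc 1 m).filter (fun k => k ≡ r [MOD q]) ∪ (Ioc m ((J + 1) * m)).filter (fun k => k ≡ r [MOD q]) := by
    ext k
    simp only [mem_union, mem_filter, mem_Icc, mem_Ioc]
    constructor
    · rintro ⟨⟨a, b⟩, c⟩
      by_cases h : k ≤ m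
      · exact Or.inl ⟨⟨a, h⟩, c⟩
      · exact Or.inr ⟨⟨by omega, b⟩, c⟩
    · rintro (⟨⟨a, b⟩, c⟩ | ⟨⟨a, b⟩, c⟩)
      · exact ⟨⟨a, by omega⟩, c⟩
      · exact ⟨⟨by omega, b⟩, c⟩
  have h3 : Disjoint ((Icc 1 m).filter (fun k => k ≡ r [MOD q]))
      ((Ioc m ((J + 1) * m)).filter (fun k => k ≡ r [MOD q])) := by
    rw [disjoint_left]
    intro k hk hk'
    rw [mem_filter, mem_Icc] at hk
    rw [mem_filter, mem_Ioc] at hk'
    omega
  rw [h2, sum_union h3, sum_union h3, add_sub_cancel_left]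
  have h4 : ∑ k ∈ (Icc 1 m).filter (fun k => k ≡ r [MOD q]), wm m k = 0 := by
    apply sum_eq_zero
    intro k hk
    rw [mem_filter, mem_Icc] at hk
    unfold wm
    rw [if_neg (by omega)]
  rw [h4, zero_add]
  apply sum_congr rfl
  intro k hk
  rw [mem_filter, mem_Ioc] at hk
  unfold wm
  rw [if_pos hk.1.1]

/-- small denominators -/
theorem four_small (K U : ℕ) : ∃ N₀ : ℕ, ∀ m J c : ℕ, 1 ≤ m → N₀ ≤ (J + 1) * m →
    ((m / c.gcd m : ℕ) : ℝ) ≤ Real.log ((J + 1) * m : ℕ) ^ K →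
    ‖∑ n ∈ range m, ((FF m J n : ℝ) : ℂ) * ee ((n : ℝ) * ((c : ℝ) / m))‖ ≤
      Real.log ((J + 1) * m : ℕ) ^ K * (4 * ((((J + 1) * m : ℕ) : ℝ) / Real.log ((J + 1) * m : ℕ) ^ U) +
        8 * (√(((J + 1) * m : ℕ) : ℝ) * Real.log ((J + 1) * m : ℕ))) := by
  classical
  obtain ⟨N₀, hN₀⟩ := Pool.Agent.H373R2.T7.lam_ap K U
  refine ⟨max N₀ 3, fun m J c hm hN hq => ?_⟩
  set N : ℕ := (J + 1) * m with hNdef
  have hN0 : N₀ ≤ N := (le_max_left _ _).trans hN
  have hN3 : 3 ≤ N := (le_max_right _ _).trans hN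
  have hN3r : (3 : ℝ) ≤ N := by exact_mod_cast hN3
  have hmN : m ≤ N := Nat.le_mul_of_pos_left m (by omega)
  have hlogN : 1 ≤ Real.log N := by
    rw [Real.le_log_iff_exp_le (by linarith)]
    linarith [Real.exp_one_lt_d9]
  set g := c.gcd m with hg
  have hg0 : 0 < g := Nat.gcd_pos_of_pos_right c hm
  obtain ⟨c', hc'⟩ : g ∣ c := Nat.gcd_dvd_left _ _
  obtain ⟨q, hqm⟩ : g ∣ m := Nat.gcd_dvd_right _ _
  have hmq : m / g = q := by
    rw [hqm]; exact Nat.mul_div_cancel_left q hg0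
  rw [hmq] at hq
  have hq0 : 0 < q := by
    rcases Nat.eq_zero_or_pos q with h | h
    · rw [h, mul_zero] at hqm; omega
    · exact h
  have hqdvd : q ∣ m := ⟨g, by rw [mul_comm]; exact hqm⟩
  have hgr : (0 : ℝ) < g := by exact_mod_cast hg0
  have hqr : (0 : ℝ) < q := by exact_mod_cast hq0
  set E : ℝ := (N : ℝ) / Real.log N ^ U with hE
  set E2 : ℝ := √(N : ℝ) * Real.log N with hE2
  have hE0 : 0 ≤ E := by rw [hE]; positivity
  have hE20 : 0 ≤ E2 := by rw [hE2]; positivity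
  -- class sums of `om`
  have hcls : ∀ (q' : ℕ), 1 ≤ q' → (q' : ℝ) ≤ Real.log N ^ K → ∀ r y : ℕ, y ≤ N →
      |∑ k ∈ (Icc 1 y).filter (fun k => k ≡ r [MOD q']), om k -
        (if r.Coprime q' then (y : ℝ) / (Nat.totient q' : ℝ) else 0)| ≤ E + 2 * E2 := by
    intro q' hq1 hq2 r y hy
    have h1 := hN₀ N hN0 q' hq1 hq2 r y hy
    have h2 := om_diff y q' r
    have h3 : 2 * √(y : ℝ) * Real.log y ≤ 2 * E2 := by
      rw [hE2]
      have hyr : (y : ℝ) ≤ N := by exact_mod_cast hy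
      rcases Nat.eq_zero_or_pos y with h0 | h0
      · rw [h0]
        simp only [Nat.cast_zero, Real.sqrt_zero, mul_zero, zero_mul]
        positivity
      · have hy0 : (0 : ℝ) < y := by exact_mod_cast h0
        have hy1 : (1 : ℝ) ≤ y := by exact_mod_cast h0
        have a1 := Real.log_le_log hy0 hyr
        have a2 := Real.log_nonneg hy1
        have a3 := Real.sqrt_le_sqrt hyr
        calc 2 * √(y : ℝ) * Real.log y ≤ 2 * √(N : ℝ) * Real.log N := by gcongr
          _ = _ := by ring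
    have h4 := abs_sub_le (∑ k ∈ (Icc 1 y).filter (fun k => k ≡ r [MOD q']), om k)
      (∑ k ∈ (Icc 1 y).filter (fun k => k ≡ r [MOD q']), ArithmeticFunction.vonMangoldt k)
      (if r.Coprime q' then (y : ℝ) / (Nat.totient q' : ℝ) else 0)
    linarith
  -- the total mass
  have hTh : |Th m J - ((N : ℝ) - m)| ≤ 2 * (E + 2 * E2) := by
    have hL1 : ((1 : ℕ) : ℝ) ≤ Real.log N ^ K := by
      push_cast
      exact one_le_pow₀ hlogN
    have a1 := hcls 1 le_rfl hL1 0 N le_rfl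
    have a2 := hcls 1 le_rfl hL1 0 m hmN
    have e1 : ∀ y : ℕ, (Icc 1 y).filter (fun k => k ≡ 0 [MOD 1]) = Icc 1 y := by
      intro y
      apply filter_true_of_mem
      intro k _
      exact Nat.modEq_one
    rw [e1, sum_om, if_pos (Nat.coprime_one_right 0), Nat.totient_one, Nat.cast_one, div_one] at a1 a2
    unfold Th
    rw [abs_le] at a1 a2 ⊢
    constructor <;> linarith [a1.1, a1.2, a2.1, a2.2]
  -- the class sums of `FF`
  have hFF : ∀ r < q, |∑ n ∈ (range m).filter (fun n => n % q = r), FF m J n| ≤ 4 * E + 8 * E2 := by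
    intro r hr
    unfold FF
    rw [sum_sub_distrib, ff_class hm hqdvd J r hr, ← mul_sum, ← sum_filter, filter_filter, sum_const,
      nsmul_eq_mul, mul_one, ← hNdef]
    have b1 := hcls q hq0 hq r N le_rfl
    have b2 := hcls q hq0 hq r m hmN
    have hcnt := cnt_fib (m := m) (q := q) (r := r) hm hqdvd hr
    have hφq : 0 < Nat.totient q := Nat.totient_pos.2 hq0
    have hφqr : (1 : ℝ) ≤ Nat.totient q := by exact_mod_cast hφq
    have hφm : 0 < Nat.totient m := Nat.totient_pos.2 hm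
    have hφmr : (0 : ℝ) < Nat.totient m := by exact_mod_cast hφm
    set cn := ((range m).filter (fun n => n % q = r ∧ n.Coprime m)).card with hcn
    split_ifs at b1 b2 hcnt with hcop
    · have e1 : (cn : ℝ) * Nat.totient q = Nat.totient m := by exact_mod_cast hcnt
      have e2 : Th m J / (Nat.totient m : ℝ) * (cn : ℝ) = Th m J / (Nat.totient q : ℝ) := by
        rw [← e1]
        have : (cn : ℝ) ≠ 0 := by
          intro h0
          rw [h0, zero_mul] at e1
          linarith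
        field_simp
      rw [e2]
      have e3 : |Th m J / (Nat.totient q : ℝ) - ((N : ℝ) / Nat.totient q - (m : ℝ) / Nat.totient q)| ≤
          2 * (E + 2 * E2) := by
        have e4 : Th m J / (Nat.totient q : ℝ) - ((N : ℝ) / Nat.totient q - (m : ℝ) / Nat.totient q) =
            (Th m J - ((N : ℝ) - m)) / Nat.totient q := by ring
        rw [e4, abs_div, abs_of_pos (show (0 : ℝ) < Nat.totient q by linarith)]
        rw [div_le_iff₀ (by linarith)]
        refine hTh.trans ?_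
        have : 0 ≤ 2 * (E + 2 * E2) := by positivity
        nlinarith
      rw [abs_le] at b1 b2 e3 ⊢
      constructor <;> linarith [b1.1, b1.2, b2.1, b2.2, e3.1, e3.2]
    · have e1 : cn = 0 := by
        rcases Nat.mul_eq_zero.1 hcnt with h | h
        · exact h
        · omega
      rw [e1, Nat.cast_zero, mul_zero, sub_zero]
      rw [abs_le] at b1 b2 ⊢
      constructor <;> linarith [b1.1, b1.2, b2.1, b2.2]
  -- the Fourier coefficient
  have hee : ∀ n : ℕ, ee ((n : ℝ) * ((c : ℝ) / m)) = ee (((n % q : ℕ) : ℝ) * ((c' : ℝ) / q)) := by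
    intro n
    have e1 : (c : ℝ) / m = (c' : ℝ) / q := by
      rw [hc', hqm]
      push_cast
      field_simp
    rw [e1]
    have e2 : (n : ℝ) = ((n % q : ℕ) : ℝ) + (q : ℝ) * ((n / q : ℕ) : ℝ) := by
      exact_mod_cast (Nat.mod_add_div n q).symm
    have e3 : (n : ℝ) * ((c' : ℝ) / q) = ((n % q : ℕ) : ℝ) * ((c' : ℝ) / q) +
        (((n / q * c' : ℕ) : ℤ) : ℝ) := by
      rw [Int.cast_natCast, Nat.cast_mul]
      generalize ((n / q : ℕ) : ℝ) = u at *
      generalize ((n % q : ℕ) : ℝ) = v at *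
      rw [e2]
      field_simp
    rw [e3, ee_add_int]
  have hsum : ∑ n ∈ range m, ((FF m J n : ℝ) : ℂ) * ee ((n : ℝ) * ((c : ℝ) / m)) =
      ∑ r ∈ range q, ((∑ n ∈ (range m).filter (fun n => n % q = r), FF m J n : ℝ) : ℂ) *
        ee ((r : ℝ) * ((c' : ℝ) / q)) := by
    rw [← sum_fiberwise_of_maps_to (s := range m) (t := range q) (g := fun n => n % q)
      (fun n _ => mem_range.2 (Nat.mod_lt n hq0))]
    apply sum_congr rfl
    intro r _
    rw [Complex.ofReal_sum, sum_mul]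
    apply sum_congr rfl
    intro n hn
    rw [mem_filter] at hn
    rw [hee n, hn.2]
  rw [hsum]
  refine (norm_sum_le _ _).trans ?_
  have h5 : ∀ r ∈ range q, ‖((∑ n ∈ (range m).filter (fun n => n % q = r), FF m J n : ℝ) : ℂ) *
      ee ((r : ℝ) * ((c' : ℝ) / q))‖ ≤ 4 * E + 8 * E2 := by
    intro r hr
    rw [mem_range] at hr
    rw [norm_mul, norm_ee, mul_one, Complex.norm_real, Real.norm_eq_abs]
    exact hFF r hr
  refine (sum_le_sum h5).trans ?_
  rw [sum_const, card_range, nsmul_eq_mul]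
  apply mul_le_mul_of_nonneg_right hq
  positivity

end Pool.Agent.TH847.LM
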