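import Pool.Agent.TH847.LM.Key2

/-! Intervals of classes modulo an arbitrary modulus: the variance over the translates. -/

set_option autoImplicit false

namespace Pool.Agent.TH847.LM
open Finset Filter Pool.Agent.W301.SS Pool.Agent.H807R2.Dav

/-- the variance over the translates, in terms of the Fourier coefficients -/
lemma varE {M : ℕ} (hM : 1 ≤ M) (f : ℕ → ℝ) (hf : ∀ n, f (n + M) = f n) (A : Finset ℕ) :
    (M : ℝ) * ∑ b ∈ range M, (∑ a ∈ A, f (a + b)) ^ 2 =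
      ∑ c ∈ range M, ‖FA A ((c : ℝ) / M)‖ ^ 2 *
        ‖∑ n ∈ range M, ((f n : ℝ) : ℂ) * ee ((n : ℝ) * ((c : ℝ) / M))‖ ^ 2 := by
  have hM0 : (0 : ℝ) < M := by exact_mod_cast hM
  have hM0' : (M : ℝ) ≠ 0 := hM0.ne'
  have hG : ∀ c : ℕ, ∑ b ∈ range M, ((∑ a ∈ A, f (a + b) : ℝ) : ℂ) * ee ((b : ℝ) * ((c : ℝ) / M)) =
      (∑ a ∈ A, ee (-((a : ℝ) * ((c : ℝ) / M)))) *
        ∑ n ∈ range M, ((f n : ℝ) : ℂ) * ee ((n : ℝ) * ((c : ℝ) / M)) := by
    intro c
    have e0 : ∀ b ∈ range M, ((∑ a ∈ A, f (a + b) : ℝ) : ℂ) * ee ((b : ℝ) * ((c : ℝ) / M)) =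
        ∑ a ∈ A, ((f (a + b) : ℝ) : ℂ) * ee ((b : ℝ) * ((c : ℝ) / M)) := by
      intro b _
      rw [Complex.ofReal_sum, sum_mul]
    rw [sum_congr rfl e0, sum_comm, sum_mul]
    apply sum_congr rfl
    intro a _
    have h1 := sum_shift (M := M) (fun n => ((f n : ℝ) : ℂ) * ee ((n : ℝ) * ((c : ℝ) / M))) (by
      intro n
      show ((f (n + M) : ℝ) : ℂ) * ee (((n + M : ℕ) : ℝ) * ((c : ℝ) / M)) = ((f n : ℝ) : ℂ) * ee ((n : ℝ) * ((c : ℝ) / M))
      rw [hf]
      congr 1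
      have : (((n + M : ℕ) : ℕ) : ℝ) * ((c : ℝ) / M) = (n : ℝ) * ((c : ℝ) / M) + ((c : ℤ) : ℝ) := by
        push_cast
        field_simp
      rw [this, ee_add_int]) a
    rw [← h1, mul_sum]
    apply sum_congr rfl
    intro b _
    have : ee (((a + b : ℕ) : ℝ) * ((c : ℝ) / M)) =
        ee ((a : ℝ) * ((c : ℝ) / M)) * ee ((b : ℝ) * ((c : ℝ) / M)) := by
      rw [← ee_add]; congr 1; push_cast; ring
    have h2 : ee (-((a : ℝ) * ((c : ℝ) / M))) * ee ((a : ℝ) * ((c : ℝ) / M)) = 1 := by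
      rw [← ee_add, neg_add_cancel, ee_zero]
    rw [this]
    linear_combination (-(((f (a + b) : ℝ) : ℂ) * ee ((b : ℝ) * ((c : ℝ) / M)))) * h2
  have hP := parsevalF hM (fun b => ((∑ a ∈ A, f (a + b) : ℝ) : ℂ))
  have h3 : ∑ b ∈ range M, ‖((∑ a ∈ A, f (a + b) : ℝ) : ℂ)‖ ^ 2 = ∑ b ∈ range M, (∑ a ∈ A, f (a + b)) ^ 2 := by
    apply sum_congr rfl
    intro b _
    rw [Complex.norm_real, Real.norm_eq_abs, sq_abs]
  rw [h3] at hP
  rw [← hP]
  apply sum_congr rfl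
  intro c _
  rw [hG c, norm_mul, mul_pow]
  have e : ‖∑ a ∈ A, ee (-((a : ℝ) * ((c : ℝ) / M)))‖ = ‖FA A ((c : ℝ) / M)‖ := by
    have : ∑ a ∈ A, ee (-((a : ℝ) * ((c : ℝ) / M))) = (starRingEnd ℂ) (FA A ((c : ℝ) / M)) := by
      unfold FA
      rw [map_sum]
      exact sum_congr rfl fun a _ => (star_ee _).symm
    rw [this, RCLike.norm_conj]
  rw [e]

/-- far frequencies of an interval -/
lemma FA_range {m : ℕ} (hm : 0 < m) (H c : ℕ) (hc : c < m) (T : ℝ) (hT : 0 < T) (h1 : T ≤ c)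
    (h2 : T ≤ (m : ℝ) - c) : ‖FA (range H) ((c : ℝ) / m)‖ ≤ m / T := by
  have hmr : (0 : ℝ) < m := by exact_mod_cast hm
  have hcm : (c : ℝ) ≤ m := by exact_mod_cast hc.le
  have h3 := geo_bound 0 H (by omega) (M := H) (by push_cast; linarith) ((c : ℝ) / m)
  have h4 : FA (range H) ((c : ℝ) / m) = ∑ m_1 ∈ Ico 0 H, ee (m_1 * ((c : ℝ) / m)) := by
    unfold FA
    rw [range_eq_Ico]
  rw [← h4] at h3
  have h5 := dd_ge (t := (c : ℝ) / m) (by positivity) (by rw [div_le_one hmr]; exact hcm)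
  have h6 : T / m ≤ min ((c : ℝ) / m) (1 - (c : ℝ) / m) := by
    apply le_min
    · gcongr
    · have : 1 - (c : ℝ) / m = ((m : ℝ) - c) / m := by field_simp
      rw [this]
      gcongr
  have h7 : 4 * (T / m) ≤ dd ((c : ℝ) / m) := by linarith
  refine h3.trans ((KK_le' (Nat.cast_nonneg H) (by positivity) h7).trans ?_)
  rw [div_le_div_iff₀ (by positivity) hT]
  have : 4 * (T / (m : ℝ)) * m = 4 * T := by field_simp
  nlinarith

/-- a trivial bound for `FF` -/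
lemma FF_abs {m J : ℕ} (hm : 1 ≤ m) (hJ : 1 ≤ J) (n : ℕ) :
    |FF m J n| ≤ (J : ℝ) * Real.log ((J + 1) * m : ℕ) + 4 * J * (1 + 2 * Real.log m) := by
  have hm0 : 0 < m := hm
  have hmr : (0 : ℝ) < m := by exact_mod_cast hm0
  have hm1 : (1 : ℝ) ≤ m := by exact_mod_cast hm
  have hJr : (1 : ℝ) ≤ J := by exact_mod_cast hJ
  have hN1 : 1 ≤ (J + 1) * m := Nat.mul_pos (by omega) hm0
  have hlN : 0 ≤ Real.log ((J + 1) * m : ℕ) := Real.log_nonneg (by exact_mod_cast hN1)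
  have hlm : 0 ≤ Real.log m := Real.log_nonneg hm1
  have h1 : ff m J n ≤ (J : ℝ) * Real.log ((J + 1) * m : ℕ) := by
    rw [ff_congr (rp_modEq m n).symm, ff_eq (rp_mem hm0 n)]
    have hr := rp_mem hm0 n
    rw [mem_Ioc] at hr
    have : ∀ h ∈ Ioc 0 J, om (rp m n + h * m) ≤ Real.log ((J + 1) * m : ℕ) := by
      intro h hh
      rw [mem_Ioc] at hh
      unfold om
      split_ifs with hp
      · apply Real.log_le_log
        · exact_mod_cast hp.pos
        · have h1 : h * m ≤ J * m := Nat.mul_le_mul_right m hh.2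
          have e1 : (J + 1) * m = J * m + m := by ring
          exact_mod_cast (by omega : rp m n + h * m ≤ (J + 1) * m)
      · exact hlN
    refine (sum_le_sum this).trans ?_
    rw [sum_const, Nat.card_Ioc, nsmul_eq_mul, Nat.sub_zero]
  have hφ : 0 < Nat.totient m := Nat.totient_pos.2 hm
  have hφr : (0 : ℝ) < Nat.totient m := by exact_mod_cast hφ
  have h2 : Th m J / Nat.totient m ≤ 4 * J * (1 + 2 * Real.log m) := by
    have a1 := Th_le m J
    have a2 := phi_low m hm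
    rw [div_le_iff₀ hφr]
    push_cast at a1
    calc Th m J ≤ 2 * (((J : ℝ) + 1) * m) := a1
      _ ≤ 2 * ((2 * J) * m) := by gcongr; linarith
      _ = 4 * J * m := by ring
      _ ≤ 4 * J * ((1 + 2 * Real.log m) * Nat.totient m) := by gcongr
      _ = _ := by ring
  have h3 := ff_nonneg m J n
  have h4 : 0 ≤ Th m J / Nat.totient m := div_nonneg (Th_nonneg m J) hφr.le
  unfold FF
  rw [abs_le]
  have h5 : 0 ≤ (J : ℝ) * Real.log ((J + 1) * m : ℕ) := by positivity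
  have h6 : 0 ≤ 4 * (J : ℝ) * (1 + 2 * Real.log m) := by positivity
  split_ifs
  · rw [mul_one]
    constructor <;> linarith
  · rw [mul_zero]
    constructor <;> linarith

/-- the Fourier coefficient at zero vanishes -/
lemma FF_zero {m : ℕ} (hm : 1 ≤ m) (J : ℕ) :
    ∑ n ∈ range m, ((FF m J n : ℝ) : ℂ) * ee ((n : ℝ) * (((0 : ℕ) : ℝ) / m)) = 0 := by
  have hφ : 0 < Nat.totient m := Nat.totient_pos.2 hm
  have hφr : (Nat.totient m : ℂ) ≠ 0 := by exact_mod_cast hφ.ne'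
  rw [dft_FF hm J 0]
  have h1 : ∀ N : ℕ, SP N (((0 : ℕ) : ℝ) / m) = ((Chebyshev.theta (N : ℝ) : ℝ) : ℂ) := by
    intro N
    unfold SP
    rw [← sum_om, Complex.ofReal_sum]
    apply sum_congr rfl
    intro n _
    simp [ee_zero]
  have h2 : RR m 0 = (Nat.totient m : ℂ) := by
    unfold RR
    have : ∀ n ∈ range m, (if n.Coprime m then (1 : ℂ) else 0) * ee ((n : ℝ) * (((0 : ℕ) : ℝ) / m)) =
        if n.Coprime m then (1 : ℂ) else 0 := by
      intro n _
      simp [ee_zero]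
    rw [sum_congr rfl this, ← sum_filter, sum_const, nsmul_eq_mul, mul_one]
    congr 1
    rw [Nat.totient_eq_card_coprime]
    congr 1
    apply filter_congr
    intro n _
    exact Nat.coprime_comm
  rw [h1, h1, h2]
  unfold Th
  push_cast
  field_simp
  ring

end Pool.Agent.TH847.LM
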