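import Pool.Agent.TH847.LM.Ana

/-! The polylogarithmic case, every modulus. -/

set_option autoImplicit false

namespace Pool.Agent.TH847.LM
open Finset Filter Pool.Agent.W301.SS Pool.Agent.H807R2.Dav

/-- the reduced classes which contain a small prime -/
def Good (m B c : ℕ) : Prop :=
  c.Coprime m ∧ ∃ p : ℕ, p.Prime ∧ p ≡ c [MOD m] ∧ (p : ℝ) ≤ m * Real.log m ^ B

open Classical in
/-- The set version. -/
theorem sets_poly (ε : ℝ) (hε : 0 < ε) (C : ℕ) : ∃ B : ℕ, ∀ᶠ m : ℕ in atTop,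
    ∀ A : Finset ℕ, (∀ a ∈ A, a < m) → (m : ℝ) / Real.log m ^ C ≤ A.card →
    ∃ E : Finset ℕ, E ⊆ range m ∧ (E.card : ℝ) ≤ m / Real.log m ^ C ∧ ∀ b ∈ range m, b ∉ E →
      (1 / 4 - ε) * (A.filter (fun a => (a + b).Coprime m)).card - A.card / Real.log m ^ C ≤
        (A.filter (fun a => Good m B (a + b))).card := by
  set δ : ℝ := min (ε / 2) (1 / 8) with hδdef
  have hδ : 0 < δ := lt_min (by linarith) (by norm_num)
  have hδ8 : δ ≤ 1 / 8 := min_le_right _ _
  have hδε : δ ≤ ε / 2 := min_le_left _ _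
  set K : ℕ := 6 * C + 26 with hK
  obtain ⟨N₁, hsm⟩ := four_small K (K + 3 * (C + 1) + 1)
  obtain ⟨N₂, hN₂⟩ := eventually_atTop.1 (ev_log (K + 1 + 3 * (C + 1)) 32 (1 / 2) (by norm_num))
  refine ⟨K + 2, ?_⟩
  filter_upwards [analysis δ hδ hδ8, ev_L 16, eventually_ge_atTop 2, eventually_ge_atTop N₁,
    eventually_ge_atTop N₂, ev_log (K + 1) 1 (δ / 2) (by positivity)] with
    m hana h16 hm hmN1 hmN2 hKm A hA hAc
  have hmr : (2 : ℝ) ≤ m := by exact_mod_cast hm
  have hm0 : (0 : ℝ) < m := by linarith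
  have hm1 : (1 : ℝ) ≤ m := by linarith
  set ℓ := Real.log m with hℓ
  have hℓ1 : 1 ≤ ℓ := by linarith
  have hℓ0 : 0 < ℓ := by linarith
  set W : ℝ := ℓ ^ (C + 1) with hW
  have hW2 : 2 ≤ W := by
    calc (2 : ℝ) ≤ ℓ := by linarith
      _ ≤ ℓ ^ (C + 1) := le_self_pow₀ hℓ1 (by omega)
  have hW0 : 0 < W := by linarith
  set J : ℕ := ⌊ℓ ^ (K + 1)⌋₊ with hJ
  have hJle : (J : ℝ) ≤ ℓ ^ (K + 1) := Nat.floor_le (by positivity)
  have hPW : (ℓ ^ 10 * W ^ 3) ^ 2 = ℓ ^ K := by rw [hW, hK]; ring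
  have hJge : ℓ ^ K ≤ J := by
    have h1 := Nat.lt_floor_add_one (ℓ ^ (K + 1))
    rw [← hJ] at h1
    have h2 : 1 ≤ ℓ ^ K := one_le_pow₀ hℓ1
    have h3 : ℓ ^ (K + 1) = ℓ ^ K * ℓ := pow_succ _ _
    nlinarith
  have hJ1 : (1 : ℝ) ≤ J := le_trans (one_le_pow₀ hℓ1) hJge
  have hJ2 : (J : ℝ) ≤ (m : ℝ) ^ (δ / 2) := by
    refine hJle.trans ?_
    rw [one_mul] at hKm
    exact hKm
  have hsmall : ∀ c ∈ range m, ((m / c.gcd m : ℕ) : ℝ) < (ℓ ^ 10 * W ^ 3) ^ 2 →
      ‖∑ n ∈ range m, ((FF m J n : ℝ) : ℂ) * ee ((n : ℝ) * ((c : ℝ) / m))‖ ≤ (J : ℝ) * m / W ^ 3 := by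
    intro c _ hc
    rw [hPW] at hc
    set N : ℕ := (J + 1) * m with hNdef
    have hmN : m ≤ N := Nat.le_mul_of_pos_left m (by omega)
    have hN : (N : ℝ) = (J + 1) * m := by rw [hNdef]; push_cast; ring
    have hN0 : (0 : ℝ) < N := by rw [hN]; positivity
    have hNle : (N : ℝ) ≤ 2 * (J * m) := by rw [hN]; nlinarith
    have hLN : ℓ ≤ Real.log N := Real.log_le_log hm0 (by exact_mod_cast hmN)
    set LN := Real.log N with hLNdef
    have hLN0 : 0 < LN := by linarith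
    have h1 := hsm m J c (by omega) (by rw [← hNdef]; omega) (by
      rw [← hNdef, ← hLNdef]
      exact hc.le.trans (pow_le_pow_left₀ hℓ0.le hLN K))
    rw [← hNdef, ← hLNdef] at h1
    refine h1.trans ?_
    have hW3 : W ^ 3 = ℓ ^ (3 * (C + 1)) := by rw [hW]; ring
    rw [hW3]
    set U : ℕ := 3 * (C + 1) with hU
    have h2 : LN ^ K * (4 * ((N : ℝ) / LN ^ (K + U + 1))) ≤ 1 / 4 * (N / ℓ ^ U) := by
      have e : LN ^ K * (4 * ((N : ℝ) / LN ^ (K + U + 1))) = 4 / LN * (N / LN ^ U) := by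
        have : LN ^ (K + U + 1) = LN ^ K * LN ^ U * LN := by ring
        rw [this]
        field_simp
      rw [e]
      have a1 : 4 / LN ≤ 1 / 4 := by
        rw [div_le_div_iff₀ hLN0 (by norm_num)]
        linarith
      have a2 : (N : ℝ) / LN ^ U ≤ N / ℓ ^ U := by gcongr
      exact mul_le_mul a1 a2 (by positivity) (by norm_num)
    have h3 : LN ^ K * (8 * (√(N : ℝ) * LN)) ≤ 1 / 4 * (N / ℓ ^ U) := by
      have b1 := hN₂ N (by omega)
      rw [← hLNdef] at b1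
      have e : (N : ℝ) ^ (1 / 2 : ℝ) = √(N : ℝ) := (Real.sqrt_eq_rpow _).symm
      rw [e] at b1
      rw [← mul_div_assoc, le_div_iff₀ (by positivity)]
      calc LN ^ K * (8 * (√(N : ℝ) * LN)) * ℓ ^ U ≤ LN ^ K * (8 * (√(N : ℝ) * LN)) * LN ^ U := by gcongr
        _ = 1 / 4 * (√(N : ℝ) * (32 * LN ^ (K + 1 + U))) := by ring
        _ ≤ 1 / 4 * (√(N : ℝ) * √(N : ℝ)) := by gcongr
        _ = _ := by rw [Real.mul_self_sqrt hN0.le]
    calc LN ^ K * (4 * ((N : ℝ) / LN ^ (K + U + 1)) + 8 * (√(N : ℝ) * LN)) =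
          LN ^ K * (4 * ((N : ℝ) / LN ^ (K + U + 1))) + LN ^ K * (8 * (√(N : ℝ) * LN)) := by ring
      _ ≤ 1 / 4 * (N / ℓ ^ U) + 1 / 4 * (N / ℓ ^ U) := add_le_add h2 h3
      _ = (1 / 2 * N) / ℓ ^ U := by ring
      _ ≤ _ := by
        apply div_le_div_of_nonneg_right _ (by positivity)
        linarith
  have hCW : (m : ℝ) / W ≤ m / ℓ ^ C := by
    have : ℓ ^ C ≤ W := pow_le_pow_right₀ hℓ1 (by omega)
    gcongr
  obtain ⟨E, hE1, hE2, hE3⟩ := hana J W hW2 (by rw [hPW]; exact hJge) hJ2 hsmall A hA (hCW.trans hAc)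
  refine ⟨E, hE1, hE2.trans hCW, fun b hb hbE => ?_⟩
  have h1 := hE3 b hb hbE
  have h2 : Gb m J b A ⊆ A.filter (fun a => Good m (K + 2) (a + b)) := by
    intro a ha
    unfold Gb at ha
    rw [mem_filter] at ha
    obtain ⟨p, hp, hp1, _, hp3⟩ := ff_prime ha.2
    rw [mem_filter]
    refine ⟨ha.1, ff_cop (by omega) ha.2, p, hp, hp1, ?_⟩
    have hp4 : (p : ℝ) ≤ (J + 1) * m := by exact_mod_cast hp3
    have h3 : 1 ≤ ℓ ^ (K + 1) := one_le_pow₀ hℓ1
    have h4 : ℓ ^ (K + 2) = ℓ ^ (K + 1) * ℓ := pow_succ _ _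
    have h5 : (J : ℝ) + 1 ≤ ℓ ^ (K + 2) := by nlinarith
    calc (p : ℝ) ≤ (J + 1) * m := hp4
      _ ≤ ℓ ^ (K + 2) * m := by gcongr
      _ = _ := mul_comm _ _
  have h3 : ((Gb m J b A).card : ℝ) ≤ (A.filter (fun a => Good m (K + 2) (a + b))).card := by
    exact_mod_cast card_le_card h2
  refine le_trans ?_ h3
  refine le_trans ?_ h1
  have h4 : ((Ab m b A).card : ℝ) = ((A.filter (fun a => (a + b).Coprime m)).card : ℝ) := by
    unfold Ab
    congr!
  rw [h4]
  set nA : ℝ := ((A.filter (fun a => (a + b).Coprime m)).card : ℝ) with hnA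
  have hnA0 : 0 ≤ nA := Nat.cast_nonneg _
  have h5 : 1 / 4 - ε ≤ (1 - δ) * (1 / 4 - δ) := by nlinarith
  have h6 : (A.card : ℝ) / W ≤ A.card / ℓ ^ C := by
    have : ℓ ^ C ≤ W := pow_le_pow_right₀ hℓ1 (by omega)
    gcongr
  have h7 := mul_le_mul_of_nonneg_right h5 hnA0
  linarith

open Classical in
/-- From sets to intervals. -/
lemma int_of_sets {m : ℕ} (hm : 0 < m) (P : ℕ → Prop) (hP : ∀ n, P (n + m) ↔ P n) (θ : ℝ) (hθ0 : 0 ≤ θ)
    (W : ℝ) (h : ∀ A : Finset ℕ, (∀ a ∈ A, a < m) → (m : ℝ) / W ≤ A.card →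
      ∃ E : Finset ℕ, E ⊆ range m ∧ (E.card : ℝ) ≤ m / W ∧ ∀ b ∈ range m, b ∉ E →
        θ * (A.filter (fun a => (a + b).Coprime m)).card - A.card / W ≤
          (A.filter (fun a => P (a + b))).card)
    (x H s : ℕ) (hHm : H ≤ m) (hs : (m : ℝ) / W < s + 1) (hsH : s ≤ H) (hsm : s < m)
    (hHs : (m : ℝ) / W ≤ (H : ℝ) - s) :
    θ * ((Nat.totient m : ℝ) / m * ((H : ℝ) - s) - 2 * √(m : ℝ)) - ((H : ℝ) - s) / W ≤
      ((Ioc x (x + H)).filter P).card := by
  have hPmul : ∀ n k : ℕ, P (n + k * m) ↔ P n := by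
    intro n k
    induction k with
    | zero => simp
    | succ k ih =>
      have e : n + (k + 1) * m = (n + k * m) + m := by ring
      rw [e, hP, ih]
  have hPmod : ∀ n k : ℕ, n ≡ k [MOD m] → (P n ↔ P k) := by
    intro n k hnk
    have h1 := Nat.mod_add_div n m
    have h2 := Nat.mod_add_div k m
    unfold Nat.ModEq at hnk
    rw [← h1, ← h2, mul_comm m, mul_comm m, hPmul, hPmul, hnk]
  have hcast : ((H - s : ℕ) : ℝ) = (H : ℝ) - s := Nat.cast_sub hsH
  obtain ⟨E, _, hE2, hE3⟩ := h (range (H - s)) (fun a ha => by rw [mem_range] at ha; omega)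
    (by rw [card_range, hcast]; exact hHs)
  -- a translate outside of `E`
  have hex : ∃ j ∈ range (s + 1), (x + 1 + j) % m ∉ E := by
    by_contra hcon
    push Not at hcon
    have hinj : Set.InjOn (fun j => (x + 1 + j) % m) (range (s + 1) : Set ℕ) := by
      intro i hi j hj he
      have hi' : i < s + 1 := mem_range.1 hi
      have hj' : j < s + 1 := mem_range.1 hj
      have he' : x + 1 + i ≡ x + 1 + j [MOD m] := he
      have := Nat.ModEq.add_left_cancel' (x + 1) he'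
      unfold Nat.ModEq at this
      rwa [Nat.mod_eq_of_lt (by omega), Nat.mod_eq_of_lt (by omega)] at this
    have h1 : (range (s + 1)).image (fun j => (x + 1 + j) % m) ⊆ E := by
      intro y hy
      rw [mem_image] at hy
      obtain ⟨j, hj, rfl⟩ := hy
      exact hcon j hj
    have h2 := card_le_card h1
    rw [card_image_of_injOn hinj, card_range] at h2
    have h3 : ((s + 1 : ℕ) : ℝ) ≤ E.card := by exact_mod_cast h2
    push_cast at h3
    linarith
  obtain ⟨j, hj, hjE⟩ := hex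
  rw [mem_range] at hj
  have h1 := hE3 ((x + 1 + j) % m) (mem_range.2 (Nat.mod_lt _ hm)) hjE
  rw [card_range, hcast] at h1
  have hmodeq : ∀ a : ℕ, a + (x + 1 + j) % m ≡ a + (x + 1 + j) [MOD m] := by
    intro a
    exact Nat.ModEq.add_left a (Nat.mod_modEq _ _)
  have h2 : (range (H - s)).filter (fun a => P (a + (x + 1 + j) % m)) =
      (range (H - s)).filter (fun a => P (a + (x + 1 + j))) :=
    filter_congr fun a _ => hPmod _ _ (hmodeq a)
  have h3 : (range (H - s)).filter (fun a => (a + (x + 1 + j) % m).Coprime m) =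
      (range (H - s)).filter (fun a => (a + (x + 1 + j)).Coprime m) := by
    apply filter_congr
    intro a _
    unfold Nat.Coprime
    rw [(hmodeq a).gcd_eq]
  rw [h2, h3] at h1
  have h4 : ((range (H - s)).filter (fun a => P (a + (x + 1 + j)))).card ≤
      ((Ioc x (x + H)).filter P).card := by
    apply card_le_card_of_injOn (fun a => a + (x + 1 + j))
    · intro a ha
      have ha' := mem_filter.1 (mem_coe.1 ha)
      rw [mem_range] at ha'
      have : a + (x + 1 + j) ∈ (Ioc x (x + H)).filter P := by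
        rw [mem_filter, mem_Ioc]
        exact ⟨⟨by omega, by omega⟩, ha'.2⟩
      exact mem_coe.2 this
    · intro a _ a' _ he
      exact Nat.add_right_cancel he
  have h5 : ((range (H - s)).filter (fun a => (a + (x + 1 + j)).Coprime m)).card =
      (Cp m (x + j) (H - s)).card := by
    unfold Cp
    apply card_bij (fun a _ => a + (x + 1 + j))
    · intro a ha
      rw [mem_filter, mem_range] at ha
      rw [mem_filter, mem_Ioc]
      exact ⟨⟨by omega, by omega⟩, ha.2⟩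
    · intro a _ a' _ he
      exact Nat.add_right_cancel he
    · intro n hn
      rw [mem_filter, mem_Ioc] at hn
      refine ⟨n - (x + 1 + j), ?_, by omega⟩
      rw [mem_filter, mem_range]
      have e : n - (x + 1 + j) + (x + 1 + j) = n := by omega
      rw [e]
      exact ⟨by omega, hn.2⟩
  have h6 := (abs_le.1 (Cp_ge hm (x + j) (H - s))).1
  rw [hcast, ← h5] at h6
  have h7 : ((((range (H - s)).filter (fun a => P (a + (x + 1 + j)))).card : ℕ) : ℝ) ≤
      ((Ioc x (x + H)).filter P).card := by exact_mod_cast h4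
  have h8 : θ * ((Nat.totient m : ℝ) / m * ((H : ℝ) - s) - 2 * √(m : ℝ)) ≤
      θ * (((range (H - s)).filter (fun a => (a + (x + 1 + j)).Coprime m)).card : ℝ) := by
    apply mul_le_mul_of_nonneg_left _ hθ0
    linarith
  linarith

open Classical in
/-- Sets and intervals. -/
theorem poly (ε : ℝ) (hε : 0 < ε) (C : ℕ) : ∃ B : ℕ, ∀ᶠ m : ℕ in atTop,
    (∀ x H : ℕ, (m : ℝ) / Real.log m ^ C ≤ H → H ≤ m →
      (1 / 4 - ε) * ((Nat.totient m : ℝ) / m * H) ≤ ((Ioc x (x + H)).filter (Good m B)).card) ∧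
    ∀ A : Finset ℕ, (∀ a ∈ A, a < m) → (m : ℝ) / Real.log m ^ C ≤ A.card →
    ∃ E : Finset ℕ, E ⊆ range m ∧ (E.card : ℝ) ≤ m / Real.log m ^ C ∧ ∀ b ∈ range m, b ∉ E →
      (1 / 4 - ε) * (A.filter (fun a => (a + b).Coprime m)).card - A.card / Real.log m ^ C ≤
        (A.filter (fun a => Good m B (a + b))).card := by
  set ε' : ℝ := min (ε / 2) (1 / 8) with hε'def
  have hε' : 0 < ε' := lt_min (by linarith) (by norm_num)
  have hε8 : ε' ≤ 1 / 8 := min_le_right _ _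
  have hεε : ε' ≤ ε / 2 := min_le_left _ _
  obtain ⟨B, hB⟩ := sets_poly ε' hε' (C + 3)
  refine ⟨B, ?_⟩
  filter_upwards [hB, ev_L (12 / ε' + 4), eventually_ge_atTop 2,
    ev_log (C + 1) (12 / ε') (1 / 2) (by norm_num)] with m hset h1 hm hlog
  have hmr : (2 : ℝ) ≤ m := by exact_mod_cast hm
  have hm0 : (0 : ℝ) < m := by linarith
  set ℓ := Real.log m with hℓ
  have hp12 : 0 < 12 / ε' := by positivity
  have hℓ4 : 4 ≤ ℓ := by linarith
  have hℓ1 : 1 ≤ ℓ := by linarith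
  have hℓ0 : 0 < ℓ := by linarith
  have hℓC : 0 < ℓ ^ C := by positivity
  have hCC : (m : ℝ) / ℓ ^ (C + 3) ≤ m / ℓ ^ C := by
    have : ℓ ^ C ≤ ℓ ^ (C + 3) := pow_le_pow_right₀ hℓ1 (by omega)
    gcongr
  refine ⟨fun x H hH hHm => ?_, fun A hA hAc => ?_⟩
  · have hHr : (0 : ℝ) < H := lt_of_lt_of_le (by positivity) hH
    set W : ℝ := ℓ ^ (C + 3) with hW
    have hW0 : 0 < W := by positivity
    set s : ℕ := ⌊(m : ℝ) / W⌋₊ with hs
    have hs1 : (m : ℝ) / W < s + 1 := Nat.lt_floor_add_one _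
    have hs2 : (s : ℝ) ≤ m / W := Nat.floor_le (by positivity)
    have hmW : (m : ℝ) / W ≤ H / ℓ ^ 3 := by
      have e : (m : ℝ) / W = (m / ℓ ^ C) / ℓ ^ 3 := by rw [hW, pow_add]; field_simp
      rw [e]
      gcongr
    have hℓ3 : (64 : ℝ) ≤ ℓ ^ 3 := by
      calc (64 : ℝ) = 4 ^ 3 := by norm_num
        _ ≤ ℓ ^ 3 := pow_le_pow_left₀ (by norm_num) hℓ4 3
    have hH64 : (H : ℝ) / ℓ ^ 3 ≤ H / 64 := by gcongr
    have hHmr : (H : ℝ) ≤ m := by exact_mod_cast hHm
    have hsH : s ≤ H := by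
      have : (s : ℝ) ≤ H := by linarith
      exact_mod_cast this
    have hsm : s < m := by
      have : (s : ℝ) < m := by linarith
      exact_mod_cast this
    have hP : ∀ n, Good m B (n + m) ↔ Good m B n := by
      intro n
      unfold Good
      have e1 : (n + m).Coprime m ↔ n.Coprime m := by
        unfold Nat.Coprime
        rw [Nat.gcd_add_self_left]
      have e2 : ∀ p : ℕ, p ≡ n + m [MOD m] ↔ p ≡ n [MOD m] := by
        intro p
        unfold Nat.ModEq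
        rw [Nat.add_mod_right]
      simp only [e1, e2]
    have hmain := int_of_sets (m := m) (by omega) (Good m B) hP
      (1 / 4 - ε') (by linarith) W hset x H s hHm hs1 hsH hsm (by linarith)
    refine le_trans ?_ hmain
    set r : ℝ := (Nat.totient m : ℝ) / m with hr
    have hφ := phi_low m (by omega)
    rw [← hℓ] at hφ
    have hr1 : 1 ≤ 3 * ℓ * r := by
      rw [hr, mul_div_assoc', le_div_iff₀ hm0, one_mul]
      refine hφ.trans ?_
      gcongr
      linarith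
    have hr0 : 0 < r := by
      by_contra hc
      push Not at hc
      nlinarith
    have hr2 : r ≤ 1 := by
      rw [hr, div_le_one hm0]
      exact_mod_cast Nat.totient_le m
    have k0 : 12 ≤ ε' * ℓ := by
      have : 12 / ε' ≤ ℓ := by linarith
      rw [div_le_iff₀ hε'] at this
      linarith
    -- the three losses
    have k1 : (H : ℝ) / ℓ ^ 3 ≤ ε' / 4 * (r * H) := by
      rw [div_le_iff₀ (by positivity)]
      have a1 : 4 ≤ ε' * ℓ ^ 2 / 3 := by nlinarith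
      calc (H : ℝ) = 1 * H := by ring
        _ ≤ (3 * ℓ * r) * H := by gcongr
        _ = 1 / 4 * (4 * 3 * ℓ * r * H) := by ring
        _ ≤ 1 / 4 * (ε' * ℓ ^ 2 / 3 * 3 * ℓ * r * H) := by gcongr
        _ = _ := by ring
    have k2 : √(m : ℝ) ≤ ε' / 4 * (r * H) := by
      have e : (m : ℝ) ^ (1 / 2 : ℝ) = √(m : ℝ) := (Real.sqrt_eq_rpow _).symm
      rw [e] at hlog
      have a1 : 12 * ℓ ^ (C + 1) ≤ ε' * √(m : ℝ) := by
        calc 12 * ℓ ^ (C + 1) = ε' * (12 / ε' * ℓ ^ (C + 1)) := by field_simp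
          _ ≤ _ := by gcongr
      have a2 : 12 * ℓ ^ (C + 1) * √(m : ℝ) ≤ ε' * m := by
        calc 12 * ℓ ^ (C + 1) * √(m : ℝ) ≤ ε' * √(m : ℝ) * √(m : ℝ) := by gcongr
          _ = _ := by rw [mul_assoc, Real.mul_self_sqrt hm0.le]
      have a3 : ε' * (m : ℝ) ≤ ε' * (H * ℓ ^ C) := by
        rw [div_le_iff₀ hℓC] at hH
        gcongr
      have a4 : 12 * ℓ * √(m : ℝ) ≤ ε' * H := by
        have : ℓ ^ C * (12 * ℓ * √(m : ℝ)) ≤ ℓ ^ C * (ε' * H) := by
          calc _ = 12 * ℓ ^ (C + 1) * √(m : ℝ) := by ring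
            _ ≤ ε' * m := a2
            _ ≤ _ := a3
            _ = _ := by ring
        exact le_of_mul_le_mul_left this hℓC
      calc √(m : ℝ) = 1 * √(m : ℝ) := by ring
        _ ≤ (3 * ℓ * r) * √(m : ℝ) := by gcongr
        _ = 1 / 4 * r * (12 * ℓ * √(m : ℝ)) := by ring
        _ ≤ 1 / 4 * r * (ε' * H) := by gcongr
        _ = _ := by ring
    have k3 : (1 / 4 - ε') * (r * s) ≤ H / ℓ ^ 3 := by
      have : (0 : ℝ) ≤ s := Nat.cast_nonneg _
      have b1 : r * s ≤ s := by nlinarith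
      have b2 : 0 ≤ r * s := by positivity
      nlinarith
    have k4 : ((H : ℝ) - s) / W ≤ H / ℓ ^ 3 := by
      have b1 : ℓ ^ 3 ≤ W := pow_le_pow_right₀ hℓ1 (by omega)
      calc ((H : ℝ) - s) / W ≤ H / W := by
            apply div_le_div_of_nonneg_right _ hW0.le
            have : (0 : ℝ) ≤ s := Nat.cast_nonneg _
            linarith
        _ ≤ _ := by gcongr
    have k5 : (1 / 4 - ε') * (2 * √(m : ℝ)) ≤ √(m : ℝ) := by
      have := Real.sqrt_nonneg (m : ℝ)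
      nlinarith
    have hrH : 0 ≤ r * H := by positivity
    have k6 : ε' * (r * H) ≤ (ε - ε') * (r * H) := by
      apply mul_le_mul_of_nonneg_right _ hrH
      linarith
    have e : (1 / 4 - ε') * (r * ((H : ℝ) - s) - 2 * √(m : ℝ)) - ((H : ℝ) - s) / W =
        (1 / 4 - ε') * (r * H) - (1 / 4 - ε') * (r * s) - (1 / 4 - ε') * (2 * √(m : ℝ)) -
          ((H : ℝ) - s) / W := by ring
    rw [e]
    linarith
  · obtain ⟨E, hE1, hE2, hE3⟩ := hset A hA (hCC.trans hAc)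
    refine ⟨E, hE1, hE2.trans hCC, fun b hb hbE => ?_⟩
    refine le_trans ?_ (hE3 b hb hbE)
    have h2 : (A.card : ℝ) / ℓ ^ (C + 3) ≤ A.card / ℓ ^ C := by
      have : ℓ ^ C ≤ ℓ ^ (C + 3) := pow_le_pow_right₀ hℓ1 (by omega)
      gcongr
    have h3 : (1 / 4 - ε) * ((A.filter (fun a => (a + b).Coprime m)).card : ℝ) ≤
        (1 / 4 - ε') * ((A.filter (fun a => (a + b).Coprime m)).card : ℝ) := by
      apply mul_le_mul_of_nonneg_right _ (Nat.cast_nonneg _)
      linarith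
    linarith

end Pool.Agent.TH847.LM
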