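import Pool.Agent.TH847.LM.Inter2

/-! The final statements with `p < m ^ (1 + ε)`. -/

set_option autoImplicit false

namespace Pool.Agent.TH847.LM
open Finset Filter Pool.Agent.W301.SS Pool.Agent.H807R2.Dav

/-- the reduced classes which contain a prime less than `m ^ (1 + ε)` -/
def GoodE (m : ℕ) (ε : ℝ) (c : ℕ) : Prop :=
  c.Coprime m ∧ ∃ p : ℕ, p.Prime ∧ p ≡ c [MOD m] ∧ (p : ℝ) < (m : ℝ) ^ (1 + ε)

lemma GoodE_per (m : ℕ) (ε : ℝ) (n : ℕ) : GoodE m ε (n + m) ↔ GoodE m ε n := by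
  unfold GoodE
  have e1 : (n + m).Coprime m ↔ n.Coprime m := by
    unfold Nat.Coprime
    rw [Nat.gcd_add_self_left]
  have e2 : ∀ p : ℕ, p ≡ n + m [MOD m] ↔ p ≡ n [MOD m] := by
    intro p
    unfold Nat.ModEq
    rw [Nat.add_mod_right]
  simp only [e1, e2]

lemma Gb_sub (ε δ : ℝ) (hδ : 0 < δ) (hδε : δ ≤ ε) : ∀ᶠ m : ℕ in atTop, ∀ J : ℕ, 1 ≤ J →
    (J : ℝ) ≤ (m : ℝ) ^ (δ / 2) → ∀ n : ℕ, ff m J n ≠ 0 → GoodE m ε n := by
  filter_upwards [eventually_ge_atTop 2, ev_log 0 3 (δ / 2) (by positivity)] with m hm h3 J hJ hJ2 n hn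
  have hmr : (2 : ℝ) ≤ m := by exact_mod_cast hm
  have hm0 : (0 : ℝ) < m := by linarith
  obtain ⟨p, hp, hp1, _, hp3⟩ := ff_prime hn
  refine ⟨ff_cop (by omega) hn, p, hp, hp1, ?_⟩
  have hp4 : (p : ℝ) ≤ (J + 1) * m := by exact_mod_cast hp3
  have hJr : (1 : ℝ) ≤ J := by exact_mod_cast hJ
  rw [pow_zero, mul_one] at h3
  have h5 : (J : ℝ) + 1 < (m : ℝ) ^ δ := by
    have e : (m : ℝ) ^ δ = (m : ℝ) ^ (δ / 2) * (m : ℝ) ^ (δ / 2) := by
      rw [← Real.rpow_add hm0]; norm_num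
    rw [e]
    nlinarith
  calc (p : ℝ) ≤ (J + 1) * m := hp4
    _ < (m : ℝ) ^ δ * m := by gcongr
    _ = (m : ℝ) ^ (1 + δ) := by rw [Real.rpow_add hm0, Real.rpow_one, mul_comm]
    _ ≤ _ := Real.rpow_le_rpow_of_exponent_le (by linarith) (by linarith)

open Classical in
/-- From translates of one interval to intervals. -/
lemma int_of_int {m : ℕ} (hm : 0 < m) (P : ℕ → Prop) (hP : ∀ n, P (n + m) ↔ P n) (θ : ℝ) (hθ0 : 0 ≤ θ)
    (W : ℝ) (x H s : ℕ) (hHm : H ≤ m) (hs : (m : ℝ) / W < s + 1) (hsH : s ≤ H) (hsm : s < m)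
    (h : ∃ E : Finset ℕ, E ⊆ range m ∧ (E.card : ℝ) ≤ m / W ∧ ∀ b ∈ range m, b ∉ E →
        θ * ((range (H - s)).filter (fun a => (a + b).Coprime m)).card - ((H : ℝ) - s) / W ≤
          ((range (H - s)).filter (fun a => P (a + b))).card) :
    θ * ((Nat.totient m : ℝ) / m * ((H : ℝ) - s) - 2 * √(m : ℝ)) - ((H : ℝ) - s) / W ≤
      ((Ioc x (x + H)).filter P).card := by
  have hPmul : ∀ n k : ℕ, P (n + k * m) ↔ P n := by
    intro n k
    induction k with
    | zero => simp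
    | succ k ih =>
      have e : n + (k + 1) * m = (n + k * m) + m := by ring
      rw [e, hP, ih]
  have hPmod : ∀ n k : ℕ, n ≡ k [MOD m] → (P n ↔ P k) := by
    intro n k hnk
    have h1 := Nat.mod_add_div n m
    have h2 := Nat.mod_add_div k m
    unfold Nat.ModEq at hnk
    rw [← h1, ← h2, mul_comm m, mul_comm m, hPmul, hPmul, hnk]
  have hcast : ((H - s : ℕ) : ℝ) = (H : ℝ) - s := Nat.cast_sub hsH
  obtain ⟨E, _, hE2, hE3⟩ := h
  have hex : ∃ j ∈ range (s + 1), (x + 1 + j) % m ∉ E := by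
    by_contra hcon
    push Not at hcon
    have hinj : Set.InjOn (fun j => (x + 1 + j) % m) (range (s + 1) : Set ℕ) := by
      intro i hi j hj he
      have hi' : i < s + 1 := mem_range.1 hi
      have hj' : j < s + 1 := mem_range.1 hj
      have he' : x + 1 + i ≡ x + 1 + j [MOD m] := he
      have := Nat.ModEq.add_left_cancel' (x + 1) he'
      unfold Nat.ModEq at this
      rwa [Nat.mod_eq_of_lt (by omega), Nat.mod_eq_of_lt (by omega)] at this
    have h1 : (range (s + 1)).image (fun j => (x + 1 + j) % m) ⊆ E := by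
      intro y hy
      rw [mem_image] at hy
      obtain ⟨j, hj, rfl⟩ := hy
      exact hcon j hj
    have h2 := card_le_card h1
    rw [card_image_of_injOn hinj, card_range] at h2
    have h3 : ((s + 1 : ℕ) : ℝ) ≤ E.card := by exact_mod_cast h2
    push_cast at h3
    linarith
  obtain ⟨j, hj, hjE⟩ := hex
  rw [mem_range] at hj
  have h1 := hE3 ((x + 1 + j) % m) (mem_range.2 (Nat.mod_lt _ hm)) hjE
  have hmodeq : ∀ a : ℕ, a + (x + 1 + j) % m ≡ a + (x + 1 + j) [MOD m] := by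
    intro a
    exact Nat.ModEq.add_left a (Nat.mod_modEq _ _)
  have h2 : (range (H - s)).filter (fun a => P (a + (x + 1 + j) % m)) =
      (range (H - s)).filter (fun a => P (a + (x + 1 + j))) :=
    filter_congr fun a _ => hPmod _ _ (hmodeq a)
  have h3 : (range (H - s)).filter (fun a => (a + (x + 1 + j) % m).Coprime m) =
      (range (H - s)).filter (fun a => (a + (x + 1 + j)).Coprime m) := by
    apply filter_congr
    intro a _
    unfold Nat.Coprime
    rw [(hmodeq a).gcd_eq]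
  rw [h2, h3] at h1
  have h4 : ((range (H - s)).filter (fun a => P (a + (x + 1 + j)))).card ≤
      ((Ioc x (x + H)).filter P).card := by
    apply card_le_card_of_injOn (fun a => a + (x + 1 + j))
    · intro a ha
      have ha' := mem_filter.1 (mem_coe.1 ha)
      rw [mem_range] at ha'
      have : a + (x + 1 + j) ∈ (Ioc x (x + H)).filter P := by
        rw [mem_filter, mem_Ioc]
        exact ⟨⟨by omega, by omega⟩, ha'.2⟩
      exact mem_coe.2 this
    · intro a _ a' _ he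
      exact Nat.add_right_cancel he
  have h5 : ((range (H - s)).filter (fun a => (a + (x + 1 + j)).Coprime m)).card =
      (Cp m (x + j) (H - s)).card := by
    unfold Cp
    apply card_bij (fun a _ => a + (x + 1 + j))
    · intro a ha
      rw [mem_filter, mem_range] at ha
      rw [mem_filter, mem_Ioc]
      exact ⟨⟨by omega, by omega⟩, ha.2⟩
    · intro a _ a' _ he
      exact Nat.add_right_cancel he
    · intro n hn
      rw [mem_filter, mem_Ioc] at hn
      refine ⟨n - (x + 1 + j), ?_, by omega⟩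
      rw [mem_filter, mem_range]
      have e : n - (x + 1 + j) + (x + 1 + j) = n := by omega
      rw [e]
      exact ⟨by omega, hn.2⟩
  have h6 := (abs_le.1 (Cp_ge hm (x + j) (H - s))).1
  rw [hcast, ← h5] at h6
  have h7 : ((((range (H - s)).filter (fun a => P (a + (x + 1 + j)))).card : ℕ) : ℝ) ≤
      ((Ioc x (x + H)).filter P).card := by exact_mod_cast h4
  have h8 : θ * ((Nat.totient m : ℝ) / m * ((H : ℝ) - s) - 2 * √(m : ℝ)) ≤
      θ * (((range (H - s)).filter (fun a => (a + (x + 1 + j)).Coprime m)).card : ℝ) := by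
    apply mul_le_mul_of_nonneg_left _ hθ0
    linarith
  linarith

/-- the number of classes which are not prime to `m`, when `m` has no small prime factor -/
lemma nocop {m : ℕ} (hm : 2 ≤ m) (θ : ℝ) (hp : ∀ p : ℕ, p.Prime → p ∣ m → (m : ℝ) ^ θ ≤ p)
    (A : Finset ℕ) (hA : ∀ a ∈ A, a < m) (b : ℕ) :
    (A.card : ℝ) - 2 * Real.log m * (m : ℝ) ^ (1 - θ) ≤ (Ab m b A).card := by
  classical
  have hmr : (2 : ℝ) ≤ m := by exact_mod_cast hm
  have hm0 : (0 : ℝ) < m := by linarith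
  have h1 : A.card = (Ab m b A).card + (A.filter (fun a => ¬ (a + b).Coprime m)).card := by
    unfold Ab
    rw [← card_filter_add_card_filter_not (s := A) (fun a => (a + b).Coprime m)]
  have h2 : (A.filter (fun a => ¬ (a + b).Coprime m)).card ≤
      ((range m).filter (fun n => ¬ n.Coprime m)).card := by
    apply card_le_card_of_injOn (fun a => (a + b) % m)
    · intro a ha
      have ha' := mem_filter.1 (mem_coe.1 ha)
      have : (a + b) % m ∈ (range m).filter (fun n => ¬ n.Coprime m) := by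
        rw [mem_filter, mem_range]
        refine ⟨Nat.mod_lt _ (by omega), ?_⟩
        intro hc
        apply ha'.2
        unfold Nat.Coprime at hc ⊢
        rw [← hc]
        exact (Nat.mod_modEq (a + b) m).symm.gcd_eq
      exact mem_coe.2 this
    · intro a ha a' ha' he
      have ha1 := hA a (mem_filter.1 (mem_coe.1 ha)).1
      have ha2 := hA a' (mem_filter.1 (mem_coe.1 ha')).1
      have he' : a + b ≡ a' + b [MOD m] := he
      have := Nat.ModEq.add_right_cancel' b he'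
      unfold Nat.ModEq at this
      rwa [Nat.mod_eq_of_lt ha1, Nat.mod_eq_of_lt ha2] at this
  have h3 : (range m).filter (fun n => ¬ n.Coprime m) ⊆
      m.primeFactors.biUnion (fun p => (range m).filter (fun n => p ∣ n)) := by
    intro n hn
    rw [mem_filter] at hn
    obtain ⟨p, hp1, hp2, hp3⟩ := Nat.Prime.not_coprime_iff_dvd.1 hn.2
    rw [mem_biUnion]
    exact ⟨p, Nat.mem_primeFactors.2 ⟨hp1, hp3, by omega⟩, mem_filter.2 ⟨hn.1, hp2⟩⟩
  have h4 : (((range m).filter (fun n => ¬ n.Coprime m)).card : ℝ) ≤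
      ∑ p ∈ m.primeFactors, (((range m).filter (fun n => p ∣ n)).card : ℝ) := by
    have := (card_le_card h3).trans card_biUnion_le
    exact_mod_cast this
  have h5 : ∀ p ∈ m.primeFactors, (((range m).filter (fun n => p ∣ n)).card : ℝ) ≤ (m : ℝ) ^ (1 - θ) := by
    intro p hpm
    rw [Nat.mem_primeFactors] at hpm
    obtain ⟨k, hk⟩ := hpm.2.1
    have hp0 : 0 < p := hpm.1.pos
    have e : (range m).filter (fun n => p ∣ n) = (range k).image (fun j => p * j) := by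
      ext n
      rw [mem_filter, mem_range, mem_image]
      constructor
      · rintro ⟨h3, ⟨j, rfl⟩⟩
        refine ⟨j, ?_, rfl⟩
        rw [mem_range]
        rw [hk] at h3
        exact Nat.lt_of_mul_lt_mul_left h3
      · rintro ⟨j, hj, rfl⟩
        rw [mem_range] at hj
        refine ⟨?_, Dvd.intro j rfl⟩
        rw [hk]
        exact Nat.mul_lt_mul_of_pos_left hj hp0
    have h6 : ((range m).filter (fun n => p ∣ n)).card ≤ k := by
      rw [e]
      exact card_image_le.trans (by rw [card_range])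
    have h7 : (((range m).filter (fun n => p ∣ n)).card : ℝ) ≤ k := by exact_mod_cast h6
    refine h7.trans ?_
    have h8 := hp p hpm.1 hpm.2.1
    have h9 : (m : ℝ) = p * k := by exact_mod_cast hk
    have h10 : (m : ℝ) ^ θ * k ≤ (m : ℝ) ^ θ * (m : ℝ) ^ (1 - θ) := by
      rw [← Real.rpow_add hm0]
      have : θ + (1 - θ) = 1 := by ring
      rw [this, Real.rpow_one]
      calc (m : ℝ) ^ θ * k ≤ p * k := by gcongr
        _ = m := h9.symm
    exact le_of_mul_le_mul_left h10 (by positivity)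
  have h6 := sum_le_sum h5
  rw [sum_const, nsmul_eq_mul] at h6
  have h7 : (m.primeFactors.card : ℝ) ≤ 2 * Real.log m := by
    have h8 : 2 ^ m.primeFactors.card ≤ m := by
      calc 2 ^ m.primeFactors.card = ∏ p ∈ m.primeFactors, 2 := by rw [prod_const]
        _ ≤ ∏ p ∈ m.primeFactors, p := prod_le_prod' fun p hp => (Nat.prime_of_mem_primeFactors hp).two_le
        _ ≤ m := Nat.le_of_dvd (by omega) (Nat.prod_primeFactors_dvd m)
    have q1 : (2 : ℝ) ^ m.primeFactors.card ≤ m := by exact_mod_cast h8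
    have q2 := Real.log_le_log (by positivity) q1
    rw [Real.log_pow] at q2
    have q3 : (1 : ℝ) / 2 ≤ Real.log 2 := by linarith [Real.log_two_gt_d9]
    nlinarith [(Nat.cast_nonneg m.primeFactors.card : (0 : ℝ) ≤ (m.primeFactors.card : ℝ))]
  have h8 : (A.card : ℝ) = (Ab m b A).card + (A.filter (fun a => ¬ (a + b).Coprime m)).card := by
    exact_mod_cast h1
  have h9 : ((A.filter (fun a => ¬ (a + b).Coprime m)).card : ℝ) ≤
      ((range m).filter (fun n => ¬ n.Coprime m)).card := by exact_mod_cast h2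
  have h10 : (m.primeFactors.card : ℝ) * (m : ℝ) ^ (1 - θ) ≤ 2 * Real.log m * (m : ℝ) ^ (1 - θ) := by
    gcongr
  linarith

open Classical in
theorem power_int (ε : ℝ) (hε : 0 < ε) : ∃ κ : ℝ, 0 < κ ∧ ∀ᶠ m : ℕ in atTop,
    ∀ x H : ℕ, (m : ℝ) ^ (1 - κ) ≤ H → H ≤ m →
      (1 / 4 - ε) * ((Nat.totient m : ℝ) / m * H) ≤ ((Ioc x (x + H)).filter (GoodE m ε)).card := by
  set δ : ℝ := min (ε / 4) (1 / 16) with hδdef
  have hδ : 0 < δ := lt_min (by linarith) (by norm_num)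
  have hδ8 : δ ≤ 1 / 16 := min_le_right _ _
  have hδε : δ ≤ ε / 4 := min_le_left _ _
  set κ : ℝ := δ / 16 with hκ
  have hκ0 : 0 < κ := by rw [hκ]; positivity
  set ε' : ℝ := 5 / 4 * δ with hε'
  have hε'0 : 0 < ε' := by rw [hε']; positivity
  refine ⟨κ, hκ0, ?_⟩
  filter_upwards [inter_ana δ hδ (by linarith), Gb_sub ε δ hδ (by linarith), ev_L (12 / ε' + 4),
    eventually_ge_atTop 2, ev_log 1 (12 / ε') (1 / 2 - κ) (by linarith),
    ev_log 39 1 (δ / 8) (by positivity)] with m hana hgb h1 hm hlog h39 x H hH hHm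
  have hmr : (2 : ℝ) ≤ m := by exact_mod_cast hm
  have hm0 : (0 : ℝ) < m := by linarith
  have hm1 : (1 : ℝ) ≤ m := by linarith
  set ℓ := Real.log m with hℓ
  have hp12 : 0 < 12 / ε' := by positivity
  have hℓ4 : 4 ≤ ℓ := by linarith
  have hℓ1 : 1 ≤ ℓ := by linarith
  have hℓ0 : 0 < ℓ := by linarith
  have hHr : (0 : ℝ) < H := lt_of_lt_of_le (by positivity) hH
  have hHmr : (H : ℝ) ≤ m := by exact_mod_cast hHm
  -- the parameters
  set W : ℝ := ℓ ^ 3 * (m : ℝ) ^ κ with hW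
  have hmκ1 : 1 ≤ (m : ℝ) ^ κ := Real.one_le_rpow hm1 hκ0.le
  have hℓ3 : (64 : ℝ) ≤ ℓ ^ 3 := by
    calc (64 : ℝ) = 4 ^ 3 := by norm_num
      _ ≤ ℓ ^ 3 := pow_le_pow_left₀ (by norm_num) hℓ4 3
  have hW3 : ℓ ^ 3 ≤ W := by rw [hW]; nlinarith
  have hW4 : 4 ≤ W := by linarith
  have hW0 : 0 < W := by linarith
  have hmW : (m : ℝ) / W ≤ H / ℓ ^ 3 := by
    have e : (m : ℝ) / W = (m : ℝ) ^ (1 - κ) / ℓ ^ 3 := by
      rw [hW, Real.rpow_sub hm0, Real.rpow_one]
      field_simp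
    rw [e]
    gcongr
  have hH64 : (H : ℝ) / ℓ ^ 3 ≤ H / 64 := by gcongr
  set J : ℕ := ⌊(m : ℝ) ^ (δ / 2)⌋₊ with hJdef
  have hJ2 : (J : ℝ) ≤ (m : ℝ) ^ (δ / 2) := Nat.floor_le (by positivity)
  have hPJ : (ℓ ^ 10 * W ^ 3) ^ 2 ≤ J := by
    have e : (ℓ ^ 10 * W ^ 3) ^ 2 = ℓ ^ 38 * (m : ℝ) ^ (3 * δ / 8) := by
      have e1 : ((m : ℝ) ^ κ) ^ 6 = (m : ℝ) ^ (3 * δ / 8) := by
        rw [← Real.rpow_natCast, ← Real.rpow_mul hm0.le]
        congr 1
        rw [hκ]; push_cast; ring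
      rw [hW, ← e1]; ring
    have h2 : 2 * (ℓ ^ 38 * (m : ℝ) ^ (3 * δ / 8)) ≤ (m : ℝ) ^ (δ / 2) := by
      rw [one_mul] at h39
      have e2 : (m : ℝ) ^ (δ / 2) = (m : ℝ) ^ (δ / 8) * (m : ℝ) ^ (3 * δ / 8) := by
        rw [← Real.rpow_add hm0]
        congr 1; ring
      rw [e2]
      calc 2 * (ℓ ^ 38 * (m : ℝ) ^ (3 * δ / 8)) = (2 * ℓ ^ 38) * (m : ℝ) ^ (3 * δ / 8) := by ring
        _ ≤ ℓ ^ 39 * (m : ℝ) ^ (3 * δ / 8) := by
          apply mul_le_mul_of_nonneg_right _ (by positivity)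
          have : ℓ ^ 39 = ℓ * ℓ ^ 38 := by ring
          rw [this]
          apply mul_le_mul_of_nonneg_right _ (by positivity)
          linarith
        _ ≤ _ := by gcongr
    have h3 := Nat.lt_floor_add_one ((m : ℝ) ^ (δ / 2))
    rw [← hJdef] at h3
    have h4 : 1 ≤ ℓ ^ 38 * (m : ℝ) ^ (3 * δ / 8) := by
      have a1 : 1 ≤ ℓ ^ 38 := one_le_pow₀ hℓ1
      have a2 : 1 ≤ (m : ℝ) ^ (3 * δ / 8) := Real.one_le_rpow hm1 (by positivity)
      nlinarith
    rw [e]
    linarith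
  have hJ1 : 1 ≤ J := by
    have h2 : 1 ≤ (ℓ ^ 10 * W ^ 3) ^ 2 := by
      apply one_le_pow₀
      have a1 : 1 ≤ ℓ ^ 10 := one_le_pow₀ hℓ1
      have a2 : 1 ≤ W ^ 3 := one_le_pow₀ (by linarith)
      nlinarith
    exact_mod_cast h2.trans hPJ
  set s : ℕ := ⌊(m : ℝ) / W⌋₊ with hs
  have hs1 : (m : ℝ) / W < s + 1 := Nat.lt_floor_add_one _
  have hs2 : (s : ℝ) ≤ m / W := Nat.floor_le (by positivity)
  have hsH : s ≤ H := by
    have : (s : ℝ) ≤ H := by linarith
    exact_mod_cast this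
  have hsm : s < m := by
    have : (s : ℝ) < m := by linarith
    exact_mod_cast this
  have hcast : ((H - s : ℕ) : ℝ) = (H : ℝ) - s := Nat.cast_sub hsH
  obtain ⟨E, hE1, hE2, hE3⟩ := hana J W hW4 hPJ hJ2 (H - s) (by omega) (by rw [hcast]; linarith)
  have hδδ : 1 / 4 - ε' ≤ (1 - δ) * (1 / 4 - δ) := by rw [hε']; nlinarith
  have hmain := int_of_int (m := m) (by omega) (GoodE m ε) (GoodE_per m ε) (1 / 4 - ε')
    (by rw [hε']; linarith) W x H s hHm hs1 hsH hsm ⟨E, hE1, hE2, fun b hb hbE => by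
      have h2 := hE3 b hb hbE
      have h3 : Gb m J b (range (H - s)) ⊆ (range (H - s)).filter (fun a => GoodE m ε (a + b)) := by
        intro a ha
        unfold Gb at ha
        rw [mem_filter] at ha
        rw [mem_filter]
        exact ⟨ha.1, hgb J hJ1 hJ2 _ ha.2⟩
      have h4 : ((Gb m J b (range (H - s))).card : ℝ) ≤
          ((range (H - s)).filter (fun a => GoodE m ε (a + b))).card := by
        exact_mod_cast card_le_card h3
      have h5 : ((Ab m b (range (H - s))).card : ℝ) =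
          (((range (H - s)).filter (fun a => (a + b).Coprime m)).card : ℝ) := by
        unfold Ab
        congr!
      rw [h5, hcast] at h2
      have h6 := mul_le_mul_of_nonneg_right hδδ
        (Nat.cast_nonneg (α := ℝ) ((range (H - s)).filter (fun a => (a + b).Coprime m)).card)
      linarith⟩
  refine le_trans ?_ hmain
  set r : ℝ := (Nat.totient m : ℝ) / m with hr
  have hφ := phi_low m (by omega)
  rw [← hℓ] at hφ
  have hr1 : 1 ≤ 3 * ℓ * r := by
    rw [hr, mul_div_assoc', le_div_iff₀ hm0, one_mul]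
    refine hφ.trans ?_
    gcongr
    linarith
  have hr0 : 0 < r := by
    by_contra hc
    push Not at hc
    nlinarith
  have hr2 : r ≤ 1 := by
    rw [hr, div_le_one hm0]
    exact_mod_cast Nat.totient_le m
  have k0 : 12 ≤ ε' * ℓ := by
    have : 12 / ε' ≤ ℓ := by linarith
    rw [div_le_iff₀ hε'0] at this
    linarith
  have k1 : (H : ℝ) / ℓ ^ 3 ≤ ε' / 4 * (r * H) := by
    rw [div_le_iff₀ (by positivity)]
    have a1 : 4 ≤ ε' * ℓ ^ 2 / 3 := by nlinarith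
    calc (H : ℝ) = 1 * H := by ring
      _ ≤ (3 * ℓ * r) * H := by gcongr
      _ = 1 / 4 * (4 * 3 * ℓ * r * H) := by ring
      _ ≤ 1 / 4 * (ε' * ℓ ^ 2 / 3 * 3 * ℓ * r * H) := by gcongr
      _ = _ := by ring
  have k2 : √(m : ℝ) ≤ ε' / 4 * (r * H) := by
    rw [pow_one] at hlog
    have a4 : 12 * ℓ * √(m : ℝ) ≤ ε' * H := by
      have e : (m : ℝ) ^ (1 - κ) = (m : ℝ) ^ (1 / 2 - κ) * √(m : ℝ) := by
        rw [Real.sqrt_eq_rpow, ← Real.rpow_add hm0]
        congr 1; ring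
      calc 12 * ℓ * √(m : ℝ) = ε' * ((12 / ε' * ℓ) * √(m : ℝ)) := by field_simp
        _ ≤ ε' * ((m : ℝ) ^ (1 / 2 - κ) * √(m : ℝ)) := by gcongr
        _ = ε' * (m : ℝ) ^ (1 - κ) := by rw [e]
        _ ≤ _ := by gcongr
    calc √(m : ℝ) = 1 * √(m : ℝ) := by ring
      _ ≤ (3 * ℓ * r) * √(m : ℝ) := by gcongr
      _ = 1 / 4 * r * (12 * ℓ * √(m : ℝ)) := by ring
      _ ≤ 1 / 4 * r * (ε' * H) := by gcongr
      _ = _ := by ring
  have hθ1 : 1 / 4 - ε' ≤ 1 := by linarith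
  have hθ0 : 0 ≤ 1 / 4 - ε' := by rw [hε']; linarith
  have k3 : (1 / 4 - ε') * (r * s) ≤ H / ℓ ^ 3 := by
    have : (0 : ℝ) ≤ s := Nat.cast_nonneg _
    have b1 : r * s ≤ s := by nlinarith
    have b2 : 0 ≤ r * s := by positivity
    nlinarith
  have k4 : ((H : ℝ) - s) / W ≤ H / ℓ ^ 3 := by
    calc ((H : ℝ) - s) / W ≤ H / W := by
          apply div_le_div_of_nonneg_right _ hW0.le
          have : (0 : ℝ) ≤ s := Nat.cast_nonneg _
          linarith
      _ ≤ _ := by gcongr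
  have k5 : (1 / 4 - ε') * (2 * √(m : ℝ)) ≤ √(m : ℝ) := by
    have := Real.sqrt_nonneg (m : ℝ)
    nlinarith
  have hrH : 0 ≤ r * H := by positivity
  have k6 : ε' * (r * H) ≤ (ε - ε') * (r * H) := by
    apply mul_le_mul_of_nonneg_right _ hrH
    rw [hε']; linarith
  have e : (1 / 4 - ε') * (r * ((H : ℝ) - s) - 2 * √(m : ℝ)) - ((H : ℝ) - s) / W =
      (1 / 4 - ε') * (r * H) - (1 / 4 - ε') * (r * s) - (1 / 4 - ε') * (2 * √(m : ℝ)) -
        ((H : ℝ) - s) / W := by ring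
  rw [e]
  linarith

open Classical in
theorem power_sets (ε θ : ℝ) (hε : 0 < ε) (hθ : 0 < θ) (hθ1 : θ ≤ 1) : ∃ κ : ℝ, 0 < κ ∧
    ∀ᶠ m : ℕ in atTop, (∀ p : ℕ, p.Prime → p ∣ m → (m : ℝ) ^ θ ≤ p) →
    ∀ A : Finset ℕ, (∀ a ∈ A, a < m) → (m : ℝ) ^ (1 - κ) ≤ A.card →
    ∃ E : Finset ℕ, E ⊆ range m ∧ (E.card : ℝ) ≤ (m : ℝ) ^ (1 - κ) ∧ ∀ b ∈ range m, b ∉ E →
      (1 / 4 - ε) * A.card ≤ (A.filter (fun a => GoodE m ε (a + b))).card := by
  set δ : ℝ := min (ε / 4) (1 / 16) with hδdef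
  have hδ : 0 < δ := lt_min (by linarith) (by norm_num)
  have hδ8 : δ ≤ 1 / 16 := min_le_right _ _
  have hδε : δ ≤ ε / 4 := min_le_left _ _
  set κ : ℝ := min (δ / 16) (θ / 16) with hκ
  have hκ0 : 0 < κ := lt_min (by positivity) (by positivity)
  have hκ1 : κ ≤ δ / 16 := min_le_left _ _
  have hκ2 : κ ≤ θ / 16 := min_le_right _ _
  refine ⟨κ, hκ0, ?_⟩
  filter_upwards [analysis δ hδ (by linarith), Gb_sub ε δ hδ (by linarith), ev_L 4,
    eventually_ge_atTop 2, ev_log 0 (4 / ε + 2) κ hκ0, ev_log 1 (8 / ε) (θ / 2) (by positivity),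
    ev_log 21 1 (δ / 8) (by positivity), ev_log 21 1 (θ / 2) (by positivity)] with
    m hana hgb h1 hm hWb hlogθ h21 h21θ hp A hA hAc
  have hmr : (2 : ℝ) ≤ m := by exact_mod_cast hm
  have hm0 : (0 : ℝ) < m := by linarith
  have hm1 : (1 : ℝ) ≤ m := by linarith
  set ℓ := Real.log m with hℓ
  have hℓ1 : 1 ≤ ℓ := by linarith
  have hℓ0 : 0 < ℓ := by linarith
  rw [pow_zero, mul_one] at hWb
  rw [one_mul] at h21 h21θ
  rw [pow_one] at hlogθ
  have hε4 : 0 < 4 / ε := by positivity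
  set W : ℝ := (m : ℝ) ^ κ with hW
  have hW2 : 2 ≤ W := by linarith
  have hW0 : 0 < W := by linarith
  have hmW : (m : ℝ) / W = (m : ℝ) ^ (1 - κ) := by
    rw [hW, Real.rpow_sub hm0, Real.rpow_one]
  have hW6 : (ℓ ^ 10 * W ^ 3) ^ 2 = ℓ ^ 20 * (m : ℝ) ^ (6 * κ) := by
    have e1 : ((m : ℝ) ^ κ) ^ 6 = (m : ℝ) ^ (6 * κ) := by
      rw [← Real.rpow_natCast, ← Real.rpow_mul hm0.le]
      congr 1
      push_cast; ring
    rw [hW, ← e1]; ring
  set J : ℕ := ⌊(m : ℝ) ^ (δ / 2)⌋₊ with hJdef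
  have hJ2 : (J : ℝ) ≤ (m : ℝ) ^ (δ / 2) := Nat.floor_le (by positivity)
  have hPJ : (ℓ ^ 10 * W ^ 3) ^ 2 ≤ J := by
    have h2 : 2 * (ℓ ^ 20 * (m : ℝ) ^ (6 * κ)) ≤ (m : ℝ) ^ (δ / 2) := by
      have e2 : (m : ℝ) ^ (δ / 2) = (m : ℝ) ^ (δ / 8) * (m : ℝ) ^ (3 * δ / 8) := by
        rw [← Real.rpow_add hm0]
        congr 1; ring
      rw [e2]
      calc 2 * (ℓ ^ 20 * (m : ℝ) ^ (6 * κ)) = (2 * ℓ ^ 20) * (m : ℝ) ^ (6 * κ) := by ring
        _ ≤ ℓ ^ 21 * (m : ℝ) ^ (3 * δ / 8) := by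
          apply mul_le_mul _ _ (by positivity) (by positivity)
          · have : ℓ ^ 21 = ℓ * ℓ ^ 20 := by ring
            rw [this]
            apply mul_le_mul_of_nonneg_right _ (by positivity)
            linarith
          · exact Real.rpow_le_rpow_of_exponent_le hm1 (by linarith)
        _ ≤ _ := by gcongr
    have h3 := Nat.lt_floor_add_one ((m : ℝ) ^ (δ / 2))
    rw [← hJdef] at h3
    have h4 : 1 ≤ ℓ ^ 20 * (m : ℝ) ^ (6 * κ) := by
      have a1 : 1 ≤ ℓ ^ 20 := one_le_pow₀ hℓ1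
      have a2 : 1 ≤ (m : ℝ) ^ (6 * κ) := Real.one_le_rpow hm1 (by positivity)
      nlinarith
    rw [hW6]
    linarith
  have hJ1 : 1 ≤ J := by
    have h2 : 1 ≤ (ℓ ^ 10 * W ^ 3) ^ 2 := by
      apply one_le_pow₀
      have a1 : 1 ≤ ℓ ^ 10 := one_le_pow₀ hℓ1
      have a2 : 1 ≤ W ^ 3 := one_le_pow₀ (by linarith)
      nlinarith
    exact_mod_cast h2.trans hPJ
  -- no small denominators
  have hθbig : (ℓ ^ 10 * W ^ 3) ^ 2 ≤ (m : ℝ) ^ θ := by
    rw [hW6]
    have e2 : (m : ℝ) ^ θ = (m : ℝ) ^ (θ / 2) * (m : ℝ) ^ (θ / 2) := by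
      rw [← Real.rpow_add hm0]; norm_num
    rw [e2]
    apply mul_le_mul _ _ (by positivity) (by positivity)
    · refine le_trans ?_ h21θ
      exact pow_le_pow_right₀ hℓ1 (by norm_num)
    · exact Real.rpow_le_rpow_of_exponent_le hm1 (by linarith)
  have hsmall : ∀ c ∈ range m, ((m / c.gcd m : ℕ) : ℝ) < (ℓ ^ 10 * W ^ 3) ^ 2 →
      ‖∑ n ∈ range m, ((FF m J n : ℝ) : ℂ) * ee ((n : ℝ) * ((c : ℝ) / m))‖ ≤ (J : ℝ) * m / W ^ 3 := by
    intro c hc hcq
    rw [mem_range] at hc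
    rcases Nat.eq_zero_or_pos c with h0 | hc0
    · rw [h0, FF_zero (by omega), norm_zero]
      positivity
    · exfalso
      have hg0 : 0 < c.gcd m := Nat.gcd_pos_of_pos_left _ hc0
      have hgc : c.gcd m ≤ c := Nat.le_of_dvd hc0 (Nat.gcd_dvd_left _ _)
      obtain ⟨q, hq⟩ : c.gcd m ∣ m := Nat.gcd_dvd_right _ _
      have hmq : m / c.gcd m = q := Nat.div_eq_of_eq_mul_right hg0 hq
      rw [hmq] at hcq
      have hq1 : q ≠ 1 := by
        intro h
        rw [h, mul_one] at hq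
        omega
      obtain ⟨p, hp1, hp2⟩ := Nat.exists_prime_and_dvd hq1
      have hpm : p ∣ m := hp2.trans ⟨c.gcd m, by rw [mul_comm]; exact hq⟩
      have hq0 : 0 < q := by
        rcases Nat.eq_zero_or_pos q with h | h
        · rw [h, mul_zero] at hq; omega
        · exact h
      have h2 := hp p hp1 hpm
      have h3 : (p : ℝ) ≤ q := by exact_mod_cast Nat.le_of_dvd hq0 hp2
      linarith
  obtain ⟨E, hE1, hE2, hE3⟩ := hana J W hW2 hPJ hJ2 hsmall A hA (by rw [hmW]; exact hAc)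
  refine ⟨E, hE1, by rw [← hmW]; exact hE2, fun b hb hbE => ?_⟩
  have h2 := hE3 b hb hbE
  have h3 : Gb m J b A ⊆ A.filter (fun a => GoodE m ε (a + b)) := by
    intro a ha
    unfold Gb at ha
    rw [mem_filter] at ha
    rw [mem_filter]
    exact ⟨ha.1, hgb J hJ1 hJ2 _ ha.2⟩
  have h4 : ((Gb m J b A).card : ℝ) ≤ (A.filter (fun a => GoodE m ε (a + b))).card := by
    exact_mod_cast card_le_card h3
  refine le_trans ?_ h4
  refine le_trans ?_ h2
  have h5 := nocop hm θ hp A hA b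
  rw [← hℓ] at h5
  have hAr : (0 : ℝ) < A.card := lt_of_lt_of_le (by positivity) hAc
  -- the two losses
  have h6 : 2 * ℓ * (m : ℝ) ^ (1 - θ) ≤ ε / 4 * A.card := by
    have e : (m : ℝ) ^ (1 - θ / 2) = (m : ℝ) ^ (1 - θ) * (m : ℝ) ^ (θ / 2) := by
      rw [← Real.rpow_add hm0]
      congr 1; ring
    calc 2 * ℓ * (m : ℝ) ^ (1 - θ) = ε / 4 * ((m : ℝ) ^ (1 - θ) * (8 / ε * ℓ)) := by field_simp; ring
      _ ≤ ε / 4 * ((m : ℝ) ^ (1 - θ) * (m : ℝ) ^ (θ / 2)) := by gcongr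
      _ = ε / 4 * (m : ℝ) ^ (1 - θ / 2) := by rw [e]
      _ ≤ ε / 4 * (m : ℝ) ^ (1 - κ) := by
        apply mul_le_mul_of_nonneg_left _ (by positivity)
        exact Real.rpow_le_rpow_of_exponent_le hm1 (by linarith)
      _ ≤ _ := by gcongr
  have h7 : (A.card : ℝ) / W ≤ ε / 4 * A.card := by
    rw [div_le_iff₀ hW0]
    have : 4 / ε ≤ W := by linarith
    rw [div_le_iff₀ hε] at this
    nlinarith
  have hδδ : 1 / 4 - 5 / 4 * δ ≤ (1 - δ) * (1 / 4 - δ) := by nlinarith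
  have hδ0 : 0 ≤ 1 / 4 - 5 / 4 * δ := by linarith
  have h8 : (1 / 4 - 5 / 4 * δ) * ((A.card : ℝ) - ε / 4 * A.card) ≤
      (1 - δ) * (1 / 4 - δ) * (Ab m b A).card := by
    calc (1 / 4 - 5 / 4 * δ) * ((A.card : ℝ) - ε / 4 * A.card) ≤
          (1 / 4 - 5 / 4 * δ) * (Ab m b A).card := by
          apply mul_le_mul_of_nonneg_left _ hδ0
          linarith
      _ ≤ _ := mul_le_mul_of_nonneg_right hδδ (Nat.cast_nonneg _)
  have h9 : 1 / 4 - 3 / 8 * ε ≤ (1 / 4 - 5 / 4 * δ) * (1 - ε / 4) := by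
    have : 0 ≤ δ * ε := by positivity
    nlinarith
  have h10 := mul_le_mul_of_nonneg_right h9 hAr.le
  have h11 : (1 / 4 - 5 / 4 * δ) * ((A.card : ℝ) - ε / 4 * A.card) =
      (1 / 4 - 5 / 4 * δ) * (1 - ε / 4) * A.card := by ring
  have h12 : 0 ≤ ε * (A.card : ℝ) := by positivity
  linarith

end Pool.Agent.TH847.LM
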