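import Pool.Agent.TH847.LM.Var
import Pool.Agent.TH847.LM.Four
import Pool.Agent.H376R2.TT.Selwq

/-! The key inequality for subsets of translates of a set of classes. -/

set_option autoImplicit false

namespace Pool.Agent.TH847.LM
open Finset Filter Pool.Agent.W301.SS Pool.Agent.H807R2.Dav

/-- the representative in `(0, m]` -/
def rp (m n : ℕ) : ℕ := if n % m = 0 then m else n % m

lemma rp_mem {m : ℕ} (hm : 0 < m) (n : ℕ) : rp m n ∈ Ioc 0 m := by
  unfold rp
  have := Nat.mod_lt n hm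
  rw [mem_Ioc]
  split_ifs <;> omega

lemma rp_modEq (m n : ℕ) : rp m n ≡ n [MOD m] := by
  unfold rp Nat.ModEq
  split_ifs with h
  · rw [Nat.mod_self, h]
  · exact Nat.mod_mod _ _

lemma rp_inj {m a a' b : ℕ} (ha : a < m) (ha' : a' < m) (h : rp m (a + b) = rp m (a' + b)) : a = a' := by
  have h1 : a + b ≡ a' + b [MOD m] := by
    have := (rp_modEq m (a + b)).symm
    rw [h] at this
    exact this.trans (rp_modEq m (a' + b))
  have h2 := Nat.ModEq.add_right_cancel' b h1
  unfold Nat.ModEq at h2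
  rwa [Nat.mod_eq_of_lt ha, Nat.mod_eq_of_lt ha'] at h2

lemma ff_le {l : ℕ → ℝ} (hl1 : l 1 = 1) {m J D : ℕ} (hm : 0 < m) (hJ : 1 ≤ J) (hD : 1 ≤ D) (hDm : D ≤ m)
    (n : ℕ) : ff m J n ≤ Real.log ((J + 1) * m : ℕ) * (J * VM l D J m 0 (rp m n)) := by
  have hJr : (0 : ℝ) < J := by exact_mod_cast hJ
  rw [ff_congr (rp_modEq m n).symm, ff_eq (rp_mem hm n)]
  have hr := rp_mem hm n
  rw [mem_Ioc] at hr
  set r := rp m n with hrdef
  have e : (J : ℝ) * VM l D J m 0 r = ∑ h ∈ Ioc 0 J, nu l D (r + (0 + h * m)) := by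
    unfold VM
    field_simp
  rw [e, mul_sum]
  apply sum_le_sum
  intro h hh
  rw [mem_Ioc] at hh
  rw [zero_add]
  have hN1 : 1 ≤ (J + 1) * m := Nat.mul_pos (by omega) hm
  have hlN : 0 ≤ Real.log ((J + 1) * m : ℕ) := Real.log_nonneg (by exact_mod_cast hN1)
  unfold om
  split_ifs with hp
  · have hbig : m < r + h * m := by
      have : m ≤ h * m := Nat.le_mul_of_pos_left m hh.1
      omega
    have hle : r + h * m ≤ (J + 1) * m := by
      have h1 : h * m ≤ J * m := Nat.mul_le_mul_right m hh.2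
      have e1 : (J + 1) * m = J * m + m := by ring
      omega
    have hnu : nu l D (r + h * m) = 1 := by
      unfold nu
      have : ∑ d ∈ Icc 1 D, (if d ∣ r + h * m then l d else 0) = 1 := by
        rw [sum_eq_single 1]
        · simp [hl1]
        · intro d hd hd1
          rw [mem_Icc] at hd
          rw [if_neg]
          intro hdvd
          rcases (Nat.dvd_prime hp).1 hdvd with h1 | h1
          · exact hd1 h1
          · omega
        · intro h1
          exact absurd (mem_Icc.2 ⟨le_rfl, hD⟩) h1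
      rw [this]; norm_num
    rw [hnu, mul_one]
    apply Real.log_le_log
    · exact_mod_cast hp.pos
    · exact_mod_cast hle
  · exact mul_nonneg hlN (nu_nonneg _ _ _)

theorem key {l : ℕ → ℝ} (hl1 : l 1 = 1) {m J D : ℕ} (hm : 0 < m) (hJ : 1 ≤ J) (hD : 1 ≤ D) (hDm : D ≤ m)
    {A : Finset ℕ} (hA : ∀ a ∈ A, a < m) (b : ℕ) (V : ℝ)
    (hV : ∑ n ∈ Ioc 0 m, (VM l D J m 0 n - mv l D) ^ 2 ≤ V) (G : Finset ℕ) (hG : G ⊆ A) :
    ∑ a ∈ G, ff m J (a + b) ≤
      Real.log ((J + 1) * m : ℕ) * (J * (G.card * mv l D + √((A.card : ℝ) * V))) := by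
  classical
  have hN1 : 1 ≤ (J + 1) * m := Nat.mul_pos (by omega) hm
  have hlN : 0 ≤ Real.log ((J + 1) * m : ℕ) := Real.log_nonneg (by exact_mod_cast hN1)
  have h1 : ∑ a ∈ G, ff m J (a + b) ≤
      ∑ a ∈ G, Real.log ((J + 1) * m : ℕ) * (J * VM l D J m 0 (rp m (a + b))) :=
    sum_le_sum fun a _ => ff_le hl1 hm hJ hD hDm _
  refine h1.trans ?_
  rw [← mul_sum, ← mul_sum]
  apply mul_le_mul_of_nonneg_left _ hlN
  apply mul_le_mul_of_nonneg_left _ (Nat.cast_nonneg _)
  have h2 : ∑ a ∈ G, VM l D J m 0 (rp m (a + b)) ≤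
      ∑ a ∈ G, (mv l D + |VM l D J m 0 (rp m (a + b)) - mv l D|) := by
    apply sum_le_sum
    intro a _
    have h4 := le_abs_self (VM l D J m 0 (rp m (a + b)) - mv l D)
    linarith
  refine h2.trans ?_
  rw [sum_add_distrib, sum_const, nsmul_eq_mul]
  have h3 : ∑ a ∈ G, |VM l D J m 0 (rp m (a + b)) - mv l D| ≤
      ∑ a ∈ A, |VM l D J m 0 (rp m (a + b)) - mv l D| :=
    sum_le_sum_of_subset_of_nonneg hG fun _ _ _ => abs_nonneg _
  have h4 : ∑ a ∈ A, |VM l D J m 0 (rp m (a + b)) - mv l D| ≤ √((A.card : ℝ) * V) := by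
    have h5 := Real.sum_mul_le_sqrt_mul_sqrt A (fun _ => (1 : ℝ))
      (fun a => |VM l D J m 0 (rp m (a + b)) - mv l D|)
    simp only [one_mul, one_pow, sum_const, nsmul_eq_mul, mul_one, sq_abs] at h5
    refine h5.trans ?_
    rw [← Real.sqrt_mul (Nat.cast_nonneg _)]
    apply Real.sqrt_le_sqrt
    apply mul_le_mul_of_nonneg_left _ (Nat.cast_nonneg _)
    refine le_trans ?_ hV
    have hinj : Set.InjOn (fun a => rp m (a + b)) (A : Set ℕ) := by
      intro a ha a' ha' he
      exact rp_inj (hA a ha) (hA a' ha') he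
    rw [← sum_image (f := fun n => (VM l D J m 0 n - mv l D) ^ 2) hinj]
    apply sum_le_sum_of_subset_of_nonneg
    · intro n hn
      rw [mem_image] at hn
      obtain ⟨a, _, rfl⟩ := hn
      exact rp_mem hm _
    · intro _ _ _; exact sq_nonneg _
  linarith

/-- the elements `a` of `A` for which `a + b` is prime to `m` -/
noncomputable def Ab (m b : ℕ) (A : Finset ℕ) : Finset ℕ := by
  classical
  exact A.filter (fun a => (a + b).Coprime m)

/-- the elements `a` of `A` for which there is a prime `p ≡ a + b (mod m)` with `m < p ≤ (J + 1) m` -/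
noncomputable def Gb (m J b : ℕ) (A : Finset ℕ) : Finset ℕ := by
  classical
  exact A.filter (fun a => ff m J (a + b) ≠ 0)

theorem core {m J D : ℕ} (hm : 2 ≤ m) (hJ : 1 ≤ J) (hD : 3 ≤ D) (hDm : D ≤ m)
    (hφ : (m : ℝ) / Nat.totient m ≤ Real.log D) {A : Finset ℕ} (hA : ∀ a ∈ A, a < m)
    {W : ℝ} (hW : 2 ≤ W) (hAc : (m : ℝ) / W ≤ A.card)
    (hF : ∀ c ∈ range m, ‖∑ n ∈ range m, ((FF m J n : ℝ) : ℂ) * ee ((n : ℝ) * ((c : ℝ) / m))‖ ≤
      (J : ℝ) * m / W ^ 3)
    (hV : (3 * (D : ℝ) ^ 4 + m / J * (1 + 4 * Real.log D) ^ 16) * Real.log ((J + 1) * m : ℕ) ^ 2 ≤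
      m / (4 * W ^ 3))
    {δ : ℝ} (hδ0 : 0 ≤ δ) (hδ : δ ≤ 1 / 4) (hTh : (1 - δ) * ((J : ℝ) * m) ≤ Th m J)
    (hlog : (1 / 4 - δ) * Real.log ((J + 1) * m : ℕ) ≤ Real.log D) :
    ∃ E : Finset ℕ, E ⊆ range m ∧ (E.card : ℝ) ≤ m / W ∧ ∀ b ∈ range m, b ∉ E →
      (1 - δ) * (1 / 4 - δ) * (Ab m b A).card - A.card / W ≤ (Gb m J b A).card := by
  classical
  have hm0 : 0 < m := by omega
  have hmr : (0 : ℝ) < m := by exact_mod_cast hm0
  have hJr : (0 : ℝ) < J := by exact_mod_cast hJ
  have hDr : (3 : ℝ) ≤ D := by exact_mod_cast hD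
  have hW0 : 0 < W := by linarith
  have hφ0 : 0 < Nat.totient m := Nat.totient_pos.2 hm0
  have hφr : (0 : ℝ) < Nat.totient m := by exact_mod_cast hφ0
  have hφm : (Nat.totient m : ℝ) ≤ m := by exact_mod_cast Nat.totient_le m
  have hlD : 1 ≤ Real.log D := by
    rw [Real.le_log_iff_exp_le (by linarith)]
    linarith [Real.exp_one_lt_d9]
  set N : ℕ := (J + 1) * m with hN
  have hmN : m ≤ N := Nat.le_mul_of_pos_left m (by omega)
  have hDN : Real.log D ≤ Real.log N := by
    apply Real.log_le_log (by linarith)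
    exact_mod_cast hDm.trans hmN
  have hlN : 1 ≤ Real.log N := hlD.trans hDN
  have hAr : (0 : ℝ) < A.card := lt_of_lt_of_le (by positivity) hAc
  obtain ⟨l, l1, l2, _, _, l5, l6, l7⟩ := Pool.Agent.H376R2.TT.sel_weights_q m (by omega) D (by omega)
  have emv : mv l D = ∑ d ∈ Icc 1 D, ∑ e ∈ Icc 1 D, l d * l e / (Nat.lcm d e : ℝ) := by
    unfold mv DD
    rw [sum_product]
  rw [← emv] at l6 l7
  have hmv1 : mv l D ≤ 1 := by
    refine l7.trans ?_
    rw [div_le_one (by linarith)]
    exact hφ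
  have hvar := varianceM l l2 D (by omega) l6 hmv1 m J m 0 hJ l5
  set V : ℝ := 3 * (D : ℝ) ^ 4 + m / J * (1 + 4 * Real.log D) ^ 16 with hVdef
  have hV0 : 0 ≤ V := by
    rw [hVdef]
    have : 0 ≤ 1 + 4 * Real.log D := by linarith
    positivity
  set lam : ℝ := (J : ℝ) * A.card / (2 * W) with hlam
  have hlam0 : 0 ≤ lam := by rw [hlam]; positivity
  set E : Finset ℕ := (range m).filter (fun b => lam < |∑ a ∈ A, FF m J (a + b)|) with hE
  have hbad := badQ (M := m) (by omega) (FF m J) (FF_per m J) A hA ((J : ℝ) * m / W ^ 3) hF lam hlam0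
  rw [← hE] at hbad
  refine ⟨E, filter_subset _ _, ?_, ?_⟩
  · -- the exceptional set
    have h1 : (E.card : ℝ) * ((J : ℝ) ^ 2 * A.card ^ 2 / (4 * W ^ 2)) ≤
        A.card * ((J : ℝ) ^ 2 * m ^ 2 / W ^ 6) := by
      have e1 : lam ^ 2 = (J : ℝ) ^ 2 * A.card ^ 2 / (4 * W ^ 2) := by
        rw [hlam]; field_simp; ring
      have e2 : ((J : ℝ) * m / W ^ 3) ^ 2 = (J : ℝ) ^ 2 * m ^ 2 / W ^ 6 := by
        field_simp
      rw [e1, e2] at hbad
      exact hbad
    have h2 : (E.card : ℝ) * A.card ≤ 4 * m ^ 2 / W ^ 4 := by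
      have h3 : ((J : ℝ) ^ 2 * A.card / (4 * W ^ 2)) * ((E.card : ℝ) * A.card) ≤
          ((J : ℝ) ^ 2 * A.card / (4 * W ^ 2)) * (4 * m ^ 2 / W ^ 4) := by
        calc _ = (E.card : ℝ) * ((J : ℝ) ^ 2 * A.card ^ 2 / (4 * W ^ 2)) := by ring
          _ ≤ _ := h1
          _ = _ := by field_simp
      exact le_of_mul_le_mul_left h3 (by positivity)
    have h3 : (E.card : ℝ) * (m / W) ≤ 4 * m ^ 2 / W ^ 4 :=
      (mul_le_mul_of_nonneg_left hAc (Nat.cast_nonneg _)).trans h2
    have h4 : (E.card : ℝ) ≤ 4 * m / W ^ 3 := by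
      have h5 : (m / W) * (E.card : ℝ) ≤ (m / W) * (4 * m / W ^ 3) := by
        calc _ = (E.card : ℝ) * (m / W) := by ring
          _ ≤ _ := h3
          _ = _ := by field_simp
      exact le_of_mul_le_mul_left h5 (by positivity)
    refine h4.trans ?_
    rw [div_le_div_iff₀ (by positivity) hW0]
    have : 4 ≤ W ^ 2 := by nlinarith
    calc 4 * (m : ℝ) * W ≤ W ^ 2 * m * W := by gcongr
      _ = _ := by ring
  · intro b hb hbE
    have h1 : |∑ a ∈ A, FF m J (a + b)| ≤ lam := by
      by_contra hc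
      exact hbE (mem_filter.2 ⟨hb, not_le.1 hc⟩)
    set nA : ℝ := ((Ab m b A).card : ℝ) with hnA
    set nG : ℝ := ((Gb m J b A).card : ℝ) with hnG
    have hnA0 : 0 ≤ nA := Nat.cast_nonneg _
    have hnG0 : 0 ≤ nG := Nat.cast_nonneg _
    have h2 : ∑ a ∈ A, FF m J (a + b) = ∑ a ∈ A, ff m J (a + b) - Th m J / Nat.totient m * nA := by
      unfold FF
      rw [sum_sub_distrib, ← mul_sum, ← sum_filter, sum_const, nsmul_eq_mul, mul_one]
      congr 3
    have h3 : ∑ a ∈ A, ff m J (a + b) = ∑ a ∈ Gb m J b A, ff m J (a + b) := by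
      unfold Gb
      exact (sum_filter_ne_zero A).symm
    have hGA : Gb m J b A ⊆ A := by unfold Gb; exact filter_subset _ _
    have h4 := key l1 hm0 hJ (by omega : 1 ≤ D) hDm hA b V hvar (Gb m J b A) hGA
    rw [← hN, ← h3, ← hnG] at h4
    rw [h2] at h1
    have h5 := (abs_le.1 h1).1
    -- the square root
    have h6 : Real.log N * √((A.card : ℝ) * V) ≤ A.card / (2 * W) := by
      have a1 : Real.log N * √((A.card : ℝ) * V) = √((A.card : ℝ) * (V * Real.log N ^ 2)) := by
        have : (A.card : ℝ) * (V * Real.log N ^ 2) = Real.log N ^ 2 * ((A.card : ℝ) * V) := by ring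
        rw [this, Real.sqrt_mul (sq_nonneg (Real.log (N : ℝ))) ((A.card : ℝ) * V),
          Real.sqrt_sq (by linarith)]
      rw [a1]
      apply Real.sqrt_le_iff.2 ⟨by positivity, ?_⟩
      calc (A.card : ℝ) * (V * Real.log N ^ 2) ≤ A.card * (m / (4 * W ^ 3)) := by gcongr
        _ = A.card * ((m / W) / (4 * W ^ 2)) := by field_simp
        _ ≤ A.card * (A.card / (4 * W ^ 2)) := by gcongr
        _ = _ := by field_simp; ring
    -- the main inequality, divided by `J`
    have h7 : (1 - δ) * ((m : ℝ) / Nat.totient m) * nA - A.card / W ≤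
        Real.log N / Real.log D * ((m : ℝ) / Nat.totient m) * nG := by
      have b1 : (J : ℝ) * ((1 - δ) * ((m : ℝ) / Nat.totient m) * nA) ≤ Th m J / Nat.totient m * nA := by
        calc _ = ((1 - δ) * ((J : ℝ) * m)) / Nat.totient m * nA := by ring
          _ ≤ _ := by gcongr
      have b2 : Real.log N * (J * (nG * mv l D + √((A.card : ℝ) * V))) ≤
          J * (Real.log N / Real.log D * ((m : ℝ) / Nat.totient m) * nG + A.card / (2 * W)) := by
        calc _ = J * (nG * (Real.log N * mv l D) + Real.log N * √((A.card : ℝ) * V)) := by ring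
          _ ≤ J * (nG * (Real.log N * (((m : ℝ) / Nat.totient m) / Real.log D)) + A.card / (2 * W)) := by
            gcongr
          _ = _ := by ring
      have b3 : lam = J * (A.card / (2 * W)) := by rw [hlam]; ring
      have b4 : (J : ℝ) * ((1 - δ) * ((m : ℝ) / Nat.totient m) * nA - A.card / W) ≤
          J * (Real.log N / Real.log D * ((m : ℝ) / Nat.totient m) * nG) := by
        have e : (A.card : ℝ) / W = A.card / (2 * W) + A.card / (2 * W) := by field_simp; norm_num
        rw [e]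
        linarith [b1, b2, h4, h5, b3]
      exact le_of_mul_le_mul_left b4 hJr
    have h8 : 0 < Real.log D / Real.log N * (Nat.totient m / m) := by positivity
    have h9 := mul_le_mul_of_nonneg_left h7 h8.le
    have h10 : Real.log D / Real.log N * (Nat.totient m / m) *
        (Real.log N / Real.log D * ((m : ℝ) / Nat.totient m) * nG) = nG := by
      have : Real.log D ≠ 0 := by linarith
      have : Real.log N ≠ 0 := by linarith
      field_simp
    rw [h10] at h9
    refine le_trans ?_ h9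
    have h11 : 1 / 4 - δ ≤ Real.log D / Real.log N := by
      rw [le_div_iff₀ (by linarith)]; exact hlog
    have h12 : Real.log D / Real.log N ≤ 1 := by
      rw [div_le_one (by linarith)]; exact hDN
    have h13 : (Nat.totient m : ℝ) / m ≤ 1 := by
      rw [div_le_one hmr]; exact hφm
    have h14 : Real.log D / Real.log N * (Nat.totient m / m) ≤ 1 := by
      have : 0 ≤ (Nat.totient m : ℝ) / m := by positivity
      have : 0 ≤ Real.log D / Real.log N := by positivity
      nlinarith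
    have h15 : Real.log D / Real.log N * (Nat.totient m / m) * ((1 - δ) * ((m : ℝ) / Nat.totient m) * nA) =
        (1 - δ) * (Real.log D / Real.log N) * nA := by
      field_simp
    have h16 : (1 - δ) * (1 / 4 - δ) * nA ≤ (1 - δ) * (Real.log D / Real.log N) * nA := by
      have : 0 ≤ 1 - δ := by linarith
      gcongr
    have h17 : Real.log D / Real.log N * (Nat.totient m / m) * (A.card / W) ≤ A.card / W := by
      have : 0 ≤ (A.card : ℝ) / W := by positivity
      nlinarith
    rw [mul_sub (Real.log D / Real.log N * (Nat.totient m / m)), h15]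
    linarith

end Pool.Agent.TH847.LM
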