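import Mathlib
import Pool.Agent.W301.SS.Sieve

/-! The variance of Selberg's upper bound function over the residue classes modulo `m`. -/

set_option autoImplicit false

namespace Pool.Agent.TH847.LM
open Finset Pool.Agent.W301.SS

lemma gcd_cop {a b m : ℕ} (ham : a.Coprime m) (u h k : ℕ) :
    ((Nat.gcd a b : ℕ) : ℤ) ∣ ((u + h * m : ℕ) : ℤ) - ((u + k * m : ℕ) : ℤ) ↔
      ((Nat.gcd a b : ℕ) : ℤ) ∣ (h : ℤ) - k := by
  have hg : (Nat.gcd a b).Coprime m := Nat.Coprime.coprime_dvd_left (Nat.gcd_dvd_left a b) ham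
  have hg2 : IsCoprime ((Nat.gcd a b : ℕ) : ℤ) (m : ℤ) := Nat.isCoprime_iff_coprime.2 hg
  have e : ((u + h * m : ℕ) : ℤ) - ((u + k * m : ℕ) : ℤ) = ((h : ℤ) - k) * m := by push_cast; ring
  rw [e]
  constructor
  · intro hd
    exact hg2.dvd_of_dvd_mul_right hd
  · intro hd
    exact hd.mul_right _

/-- the correlation of two divisibility conditions over short intervals -/
lemma corrM (X H a b m u : ℕ) (ha : 0 < a) (hb : 0 < b) (ham : a.Coprime m) :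
    |(∑ h ∈ Ioc 0 H, ∑ k ∈ Ioc 0 H, (((Ioc 0 X).filter (fun n => a ∣ n + (u + h * m) ∧ b ∣ n + (u + k * m))).card : ℝ)) -
      (H : ℝ) ^ 2 * X / (a * b)| ≤ (H : ℝ) ^ 2 + X * H / Nat.lcm a b := by
  have hg0 : 0 < Nat.gcd a b := Nat.gcd_pos_of_pos_left _ ha
  have hl0 : 0 < Nat.lcm a b := Nat.lcm_pos ha hb
  have hgr : (0 : ℝ) < Nat.gcd a b := by exact_mod_cast hg0
  have hlr : (0 : ℝ) < Nat.lcm a b := by exact_mod_cast hl0
  have hgl : (Nat.gcd a b : ℝ) * (Nat.lcm a b : ℝ) = (a : ℝ) * b := by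
    exact_mod_cast Nat.gcd_mul_lcm a b
  have h1 : |(∑ h ∈ Ioc 0 H, ∑ k ∈ Ioc 0 H, (((Ioc 0 X).filter (fun n => a ∣ n + (u + h * m) ∧ b ∣ n + (u + k * m))).card : ℝ)) -
      ∑ h ∈ Ioc 0 H, ∑ k ∈ Ioc 0 H, (if ((Nat.gcd a b : ℕ) : ℤ) ∣ (h : ℤ) - (k : ℕ) then (X : ℝ) / Nat.lcm a b else 0)| ≤
      (H : ℝ) ^ 2 := by
    rw [← sum_sub_distrib]
    refine (abs_sum_le_sum_abs _ _).trans ?_
    have : ∀ h ∈ Ioc 0 H, |(∑ k ∈ Ioc 0 H, (((Ioc 0 X).filter (fun n => a ∣ n + (u + h * m) ∧ b ∣ n + (u + k * m))).card : ℝ)) -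
      ∑ k ∈ Ioc 0 H, (if ((Nat.gcd a b : ℕ) : ℤ) ∣ (h : ℤ) - (k : ℕ) then (X : ℝ) / Nat.lcm a b else 0)| ≤ H := by
      intro h _
      rw [← sum_sub_distrib]
      refine (abs_sum_le_sum_abs _ _).trans ?_
      refine (sum_le_sum fun k _ => ?_).trans (b := ∑ _k ∈ Ioc 0 H, (1 : ℝ)) ?_
      · have hh := cnt2 X a b (u + h * m) (u + k * m) ha hb
        simp only [gcd_cop ham] at hh
        exact hh
      · simp
    refine (sum_le_sum this).trans ?_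
    rw [sum_const, nsmul_eq_mul, Nat.card_Ioc, Nat.sub_zero, sq]
  have h2 : |(∑ h ∈ Ioc 0 H, ∑ k ∈ Ioc 0 H, (if ((Nat.gcd a b : ℕ) : ℤ) ∣ (h : ℤ) - (k : ℕ) then (X : ℝ) / Nat.lcm a b else 0)) -
      (H : ℝ) ^ 2 * X / (a * b)| ≤ X * H / Nat.lcm a b := by
    have e : (H : ℝ) ^ 2 * X / (a * b) = ∑ _h ∈ Ioc 0 H, (H / Nat.gcd a b) * ((X : ℝ) / Nat.lcm a b) := by
      rw [sum_const, nsmul_eq_mul, Nat.card_Ioc, Nat.sub_zero, ← hgl]
      field_simp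
    rw [e, ← sum_sub_distrib]
    refine (abs_sum_le_sum_abs _ _).trans ?_
    have : ∀ h ∈ Ioc 0 H, |(∑ k ∈ Ioc 0 H, (if ((Nat.gcd a b : ℕ) : ℤ) ∣ (h : ℤ) - (k : ℕ) then (X : ℝ) / Nat.lcm a b else 0)) -
        (H / Nat.gcd a b) * ((X : ℝ) / Nat.lcm a b)| ≤ (X : ℝ) / Nat.lcm a b := by
      intro h _
      rw [← sum_filter, sum_const, nsmul_eq_mul, ← sub_mul, abs_mul,
        abs_of_nonneg (show 0 ≤ (X : ℝ) / Nat.lcm a b by positivity)]
      have := cntH H (Nat.gcd a b) h hg0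
      calc _ ≤ 1 * ((X : ℝ) / Nat.lcm a b) := mul_le_mul_of_nonneg_right this (by positivity)
        _ = _ := one_mul _
    refine (sum_le_sum this).trans (le_of_eq ?_)
    rw [sum_const, nsmul_eq_mul, Nat.card_Ioc, Nat.sub_zero]
    ring
  have h3 := abs_sub_le (∑ h ∈ Ioc 0 H, ∑ k ∈ Ioc 0 H, (((Ioc 0 X).filter (fun n => a ∣ n + (u + h * m) ∧ b ∣ n + (u + k * m))).card : ℝ))
    (∑ h ∈ Ioc 0 H, ∑ k ∈ Ioc 0 H, (if ((Nat.gcd a b : ℕ) : ℤ) ∣ (h : ℤ) - (k : ℕ) then (X : ℝ) / Nat.lcm a b else 0))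
    ((H : ℝ) ^ 2 * X / (a * b))
  linarith

/-- the average over the integers `n + u + h m`, `1 ≤ h ≤ H` -/
noncomputable def VM (l : ℕ → ℝ) (D H m u n : ℕ) : ℝ := (∑ h ∈ Ioc 0 H, nu l D (n + (u + h * m))) / H

/-- **The variance of Selberg's function over short intervals.** -/
theorem varianceM (l : ℕ → ℝ) (hl : ∀ d, |l d| ≤ 1) (D : ℕ) (hD : 1 ≤ D) (hm0 : 0 ≤ mv l D)
    (hm1 : mv l D ≤ 1) (X H m u : ℕ) (hH : 1 ≤ H) (hlm : ∀ d, ¬ d.Coprime m → l d = 0) :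
    ∑ n ∈ Ioc 0 X, (VM l D H m u n - mv l D) ^ 2 ≤
      3 * (D : ℝ) ^ 4 + X / H * (1 + 4 * Real.log D) ^ 16 := by
  have hH0 : (0 : ℝ) < H := by exact_mod_cast hH
  have hD1 : (1 : ℝ) ≤ D := by exact_mod_cast hD
  set c := mv l D with hc
  have hll : ∀ x : ℕ × ℕ, |l x.1 * l x.2| ≤ 1 := by
    intro x
    rw [abs_mul]
    exact mul_le_one₀ (hl _) (abs_nonneg _) (hl _)
  -- first moment
  have S1 : |(H : ℝ) * (∑ n ∈ Ioc 0 X, VM l D H m u n) - H * X * c| ≤ H * (D : ℝ) ^ 2 := by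
    have e1 : (H : ℝ) * (∑ n ∈ Ioc 0 X, VM l D H m u n) = ∑ x ∈ DD D, l x.1 * l x.2 *
        ∑ h ∈ Ioc 0 H, (((Ioc 0 X).filter (fun n => Nat.lcm x.1 x.2 ∣ n + (u + h * m))).card : ℝ) := by
      calc (H : ℝ) * (∑ n ∈ Ioc 0 X, VM l D H m u n) = ∑ n ∈ Ioc 0 X, ∑ h ∈ Ioc 0 H, nu l D (n + (u + h * m)) := by
            rw [mul_sum]
            apply sum_congr rfl; intro n _
            unfold VM; field_simp
        _ = ∑ n ∈ Ioc 0 X, ∑ h ∈ Ioc 0 H, ∑ x ∈ DD D, l x.1 * l x.2 *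
              (if Nat.lcm x.1 x.2 ∣ n + (u + h * m) then 1 else 0) := by
            apply sum_congr rfl; intro n _
            apply sum_congr rfl; intro h _
            exact nu_eq l D (n + (u + h * m))
        _ = ∑ x ∈ DD D, ∑ h ∈ Ioc 0 H, ∑ n ∈ Ioc 0 X, l x.1 * l x.2 *
              (if Nat.lcm x.1 x.2 ∣ n + (u + h * m) then 1 else 0) := by
            rw [sum_comm]
            rw [sum_congr rfl (fun h _ => sum_comm)]
            rw [sum_comm]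
        _ = _ := by
            apply sum_congr rfl; intro x _
            rw [mul_sum]
            apply sum_congr rfl; intro h _
            rw [← mul_sum, card_filter]
            push_cast
            rfl
    have e2 : (H : ℝ) * X * c = ∑ x ∈ DD D, l x.1 * l x.2 * (H * (X / (Nat.lcm x.1 x.2 : ℝ))) := by
      rw [hc]; unfold mv
      rw [mul_sum]
      apply sum_congr rfl; intro x _
      ring
    rw [e1, e2, ← sum_sub_distrib]
    refine (abs_sum_le_sum_abs _ _).trans ?_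
    have : ∀ x ∈ DD D, |l x.1 * l x.2 * (∑ h ∈ Ioc 0 H,
        (((Ioc 0 X).filter (fun n => Nat.lcm x.1 x.2 ∣ n + (u + h * m))).card : ℝ)) -
        l x.1 * l x.2 * (H * (X / (Nat.lcm x.1 x.2 : ℝ)))| ≤ H := by
      intro x hx
      rw [← mul_sub, abs_mul]
      have h2 : |(∑ h ∈ Ioc 0 H, (((Ioc 0 X).filter (fun n => Nat.lcm x.1 x.2 ∣ n + (u + h * m))).card : ℝ)) -
          (H * (X / (Nat.lcm x.1 x.2 : ℝ)))| ≤ H := by
        have e3 : (H * (X / (Nat.lcm x.1 x.2 : ℝ))) = ∑ _h ∈ Ioc 0 H, (X / (Nat.lcm x.1 x.2 : ℝ)) := by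
          rw [sum_const, nsmul_eq_mul, Nat.card_Ioc, Nat.sub_zero]
        rw [e3, ← sum_sub_distrib]
        refine (abs_sum_le_sum_abs _ _).trans ?_
        refine (sum_le_sum fun h _ => cntD X _ (u + h * m) (DD_pos hx)).trans ?_
        simp
      calc _ ≤ 1 * (H : ℝ) := mul_le_mul (hll x) h2 (abs_nonneg _) (by norm_num)
        _ = _ := one_mul _
    refine (sum_le_sum this).trans (le_of_eq ?_)
    rw [sum_const, nsmul_eq_mul]
    unfold DD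
    rw [card_product, Nat.card_Icc]
    push_cast; ring
  -- second moment
  have S2 : |(H : ℝ) ^ 2 * (∑ n ∈ Ioc 0 X, VM l D H m u n ^ 2) - (H : ℝ) ^ 2 * X * c ^ 2| ≤
      (H : ℝ) ^ 2 * (D : ℝ) ^ 4 + X * H * QS D := by
    have e1 : (H : ℝ) ^ 2 * (∑ n ∈ Ioc 0 X, VM l D H m u n ^ 2) = ∑ x ∈ DD D, ∑ z ∈ DD D,
        (l x.1 * l x.2) * (l z.1 * l z.2) * ∑ h ∈ Ioc 0 H, ∑ k ∈ Ioc 0 H,
        (((Ioc 0 X).filter (fun n => Nat.lcm x.1 x.2 ∣ n + (u + h * m) ∧ Nat.lcm z.1 z.2 ∣ n + (u + k * m))).card : ℝ) := by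
      have f1 : ∀ n ∈ Ioc 0 X, (H : ℝ) ^ 2 * VM l D H m u n ^ 2 =
          ∑ h ∈ Ioc 0 H, ∑ k ∈ Ioc 0 H, ∑ x ∈ DD D, ∑ z ∈ DD D, (l x.1 * l x.2) * (l z.1 * l z.2) *
            (if Nat.lcm x.1 x.2 ∣ n + (u + h * m) ∧ Nat.lcm z.1 z.2 ∣ n + (u + k * m) then 1 else 0) := by
        intro n _
        have g1 : (H : ℝ) ^ 2 * VM l D H m u n ^ 2 = (∑ h ∈ Ioc 0 H, nu l D (n + (u + h * m))) ^ 2 := by
          unfold VM; field_simp
        rw [g1, sq, sum_mul_sum]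
        apply sum_congr rfl; intro h _
        apply sum_congr rfl; intro k _
        rw [nu_eq, nu_eq, sum_mul_sum]
        apply sum_congr rfl; intro x _
        apply sum_congr rfl; intro z _
        by_cases h1 : Nat.lcm x.1 x.2 ∣ n + (u + h * m) <;> by_cases h2 : Nat.lcm z.1 z.2 ∣ n + (u + k * m) <;>
          simp [h1, h2]
      rw [mul_sum, sum_congr rfl f1]
      calc _ = ∑ h ∈ Ioc 0 H, ∑ n ∈ Ioc 0 X, ∑ k ∈ Ioc 0 H, ∑ x ∈ DD D, ∑ z ∈ DD D,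
            (l x.1 * l x.2) * (l z.1 * l z.2) *
            (if Nat.lcm x.1 x.2 ∣ n + (u + h * m) ∧ Nat.lcm z.1 z.2 ∣ n + (u + k * m) then (1 : ℝ) else 0) := sum_comm
        _ = ∑ h ∈ Ioc 0 H, ∑ k ∈ Ioc 0 H, ∑ n ∈ Ioc 0 X, ∑ x ∈ DD D, ∑ z ∈ DD D,
            (l x.1 * l x.2) * (l z.1 * l z.2) *
            (if Nat.lcm x.1 x.2 ∣ n + (u + h * m) ∧ Nat.lcm z.1 z.2 ∣ n + (u + k * m) then (1 : ℝ) else 0) :=
            sum_congr rfl fun h _ => sum_comm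
        _ = ∑ h ∈ Ioc 0 H, ∑ k ∈ Ioc 0 H, ∑ x ∈ DD D, ∑ z ∈ DD D,
            (l x.1 * l x.2) * (l z.1 * l z.2) *
            (((Ioc 0 X).filter (fun n => Nat.lcm x.1 x.2 ∣ n + (u + h * m) ∧ Nat.lcm z.1 z.2 ∣ n + (u + k * m))).card : ℝ) := by
            apply sum_congr rfl; intro h _
            apply sum_congr rfl; intro k _
            rw [sum_comm]
            apply sum_congr rfl; intro x _
            rw [sum_comm]
            apply sum_congr rfl; intro z _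
            rw [← mul_sum, card_filter]
            push_cast
            rfl
        _ = ∑ h ∈ Ioc 0 H, ∑ x ∈ DD D, ∑ k ∈ Ioc 0 H, ∑ z ∈ DD D,
            (l x.1 * l x.2) * (l z.1 * l z.2) *
            (((Ioc 0 X).filter (fun n => Nat.lcm x.1 x.2 ∣ n + (u + h * m) ∧ Nat.lcm z.1 z.2 ∣ n + (u + k * m))).card : ℝ) :=
            sum_congr rfl fun h _ => sum_comm
        _ = ∑ x ∈ DD D, ∑ h ∈ Ioc 0 H, ∑ k ∈ Ioc 0 H, ∑ z ∈ DD D,
            (l x.1 * l x.2) * (l z.1 * l z.2) *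
            (((Ioc 0 X).filter (fun n => Nat.lcm x.1 x.2 ∣ n + (u + h * m) ∧ Nat.lcm z.1 z.2 ∣ n + (u + k * m))).card : ℝ) :=
            sum_comm
        _ = ∑ x ∈ DD D, ∑ h ∈ Ioc 0 H, ∑ z ∈ DD D, ∑ k ∈ Ioc 0 H,
            (l x.1 * l x.2) * (l z.1 * l z.2) *
            (((Ioc 0 X).filter (fun n => Nat.lcm x.1 x.2 ∣ n + (u + h * m) ∧ Nat.lcm z.1 z.2 ∣ n + (u + k * m))).card : ℝ) :=
            sum_congr rfl fun x _ => sum_congr rfl fun h _ => sum_comm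
        _ = ∑ x ∈ DD D, ∑ z ∈ DD D, ∑ h ∈ Ioc 0 H, ∑ k ∈ Ioc 0 H,
            (l x.1 * l x.2) * (l z.1 * l z.2) *
            (((Ioc 0 X).filter (fun n => Nat.lcm x.1 x.2 ∣ n + (u + h * m) ∧ Nat.lcm z.1 z.2 ∣ n + (u + k * m))).card : ℝ) :=
            sum_congr rfl fun x _ => sum_comm
        _ = _ := by
            apply sum_congr rfl; intro x _
            apply sum_congr rfl; intro z _
            rw [mul_sum]
            apply sum_congr rfl; intro h _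
            rw [mul_sum]
    have e2 : (H : ℝ) ^ 2 * X * c ^ 2 = ∑ x ∈ DD D, ∑ z ∈ DD D,
        (l x.1 * l x.2) * (l z.1 * l z.2) *
          ((H : ℝ) ^ 2 * X / ((Nat.lcm x.1 x.2 : ℝ) * (Nat.lcm z.1 z.2 : ℝ))) := by
      rw [hc]; unfold mv
      rw [sq (∑ x ∈ DD D, l x.1 * l x.2 / (Nat.lcm x.1 x.2 : ℝ)), sum_mul_sum, mul_sum]
      apply sum_congr rfl; intro x hx
      rw [mul_sum]
      apply sum_congr rfl; intro z hz
      have p1 : ((Nat.lcm x.1 x.2 : ℕ) : ℝ) ≠ 0 := by exact_mod_cast (DD_pos hx).ne'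
      have p2 : ((Nat.lcm z.1 z.2 : ℕ) : ℝ) ≠ 0 := by exact_mod_cast (DD_pos hz).ne'
      field_simp
    rw [e1, e2, ← sum_sub_distrib]
    refine (abs_sum_le_sum_abs _ _).trans ?_
    have e3 : ∀ x ∈ DD D, |(∑ z ∈ DD D, (l x.1 * l x.2) * (l z.1 * l z.2) *
        ∑ h ∈ Ioc 0 H, ∑ k ∈ Ioc 0 H,
        (((Ioc 0 X).filter (fun n => Nat.lcm x.1 x.2 ∣ n + (u + h * m) ∧ Nat.lcm z.1 z.2 ∣ n + (u + k * m))).card : ℝ)) -
        ∑ z ∈ DD D, (l x.1 * l x.2) * (l z.1 * l z.2) *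
          ((H : ℝ) ^ 2 * X / ((Nat.lcm x.1 x.2 : ℝ) * (Nat.lcm z.1 z.2 : ℝ)))| ≤
        ∑ z ∈ DD D, ((H : ℝ) ^ 2 + X * H / (Nat.lcm (Nat.lcm x.1 x.2) (Nat.lcm z.1 z.2) : ℝ)) := by
      intro x hx
      rw [← sum_sub_distrib]
      refine (abs_sum_le_sum_abs _ _).trans (sum_le_sum fun z hz => ?_)
      rw [← mul_sub, abs_mul]
      by_cases hc1 : (Nat.lcm x.1 x.2).Coprime m
      swap
      · have hz0 : l x.1 * l x.2 = 0 := by
          by_cases g1 : x.1.Coprime m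
          · by_cases g2 : x.2.Coprime m
            · exact absurd (Nat.Coprime.coprime_dvd_left (Nat.lcm_dvd_mul x.1 x.2) (Nat.Coprime.mul_left g1 g2)) hc1
            · rw [hlm _ g2, mul_zero]
          · rw [hlm _ g1, zero_mul]
        rw [hz0, zero_mul, abs_zero, zero_mul]
        positivity
      have h1 := corrM X H (Nat.lcm x.1 x.2) (Nat.lcm z.1 z.2) m u (DD_pos hx) (DD_pos hz) hc1
      have h2 : |(l x.1 * l x.2) * (l z.1 * l z.2)| ≤ 1 := by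
        rw [abs_mul]
        exact mul_le_one₀ (hll x) (abs_nonneg _) (hll z)
      calc _ ≤ 1 * ((H : ℝ) ^ 2 + X * H / (Nat.lcm (Nat.lcm x.1 x.2) (Nat.lcm z.1 z.2) : ℝ)) :=
            mul_le_mul h2 h1 (abs_nonneg _) (by norm_num)
        _ = _ := one_mul _
    refine (sum_le_sum e3).trans (le_of_eq ?_)
    simp_rw [sum_add_distrib]
    unfold QS
    rw [mul_sum]
    congr 1
    · simp_rw [sum_const, nsmul_eq_mul]
      unfold DD
      rw [card_product, Nat.card_Icc]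
      push_cast; ring
    · apply sum_congr rfl; intro x _
      rw [mul_sum]
      apply sum_congr rfl; intro z _
      ring
  -- conclusion
  set s1 := ∑ n ∈ Ioc 0 X, VM l D H m u n with hs1
  set s2 := ∑ n ∈ Ioc 0 X, VM l D H m u n ^ 2 with hs2
  have e : ∑ n ∈ Ioc 0 X, (VM l D H m u n - c) ^ 2 = s2 - 2 * c * s1 + X * c ^ 2 := by
    have : ∀ n ∈ Ioc 0 X, (VM l D H m u n - c) ^ 2 = VM l D H m u n ^ 2 - 2 * c * VM l D H m u n + c ^ 2 := by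
      intro n _; ring
    rw [sum_congr rfl this, sum_add_distrib, sum_sub_distrib, ← mul_sum, sum_const, nsmul_eq_mul,
      Nat.card_Ioc, Nat.sub_zero]
  rw [e]
  have T1 : |s1 - X * c| ≤ (D : ℝ) ^ 2 := by
    have h1 : |(H : ℝ) * s1 - H * X * c| = H * |s1 - X * c| := by
      rw [← abs_of_pos hH0, ← abs_mul, abs_of_pos hH0]; congr 1; ring
    rw [h1] at S1
    exact le_of_mul_le_mul_left S1 hH0
  have T2 : |s2 - X * c ^ 2| ≤ (D : ℝ) ^ 4 + X / H * QS D := by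
    have hH2 : (0 : ℝ) < (H : ℝ) ^ 2 := by positivity
    have h1 : |(H : ℝ) ^ 2 * s2 - (H : ℝ) ^ 2 * X * c ^ 2| = (H : ℝ) ^ 2 * |s2 - X * c ^ 2| := by
      rw [← abs_of_pos hH2, ← abs_mul, abs_of_pos hH2]; congr 1; ring
    rw [h1] at S2
    have h2 : (H : ℝ) ^ 2 * |s2 - X * c ^ 2| ≤ (H : ℝ) ^ 2 * ((D : ℝ) ^ 4 + X / H * QS D) := by
      refine S2.trans (le_of_eq ?_)
      field_simp
    exact le_of_mul_le_mul_left h2 hH2
  have hQ := QS_le D hD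
  have hXH : 0 ≤ (X : ℝ) / H := by positivity
  have hQ2 := mul_le_mul_of_nonneg_left hQ hXH
  have hD24 : (D : ℝ) ^ 2 ≤ (D : ℝ) ^ 4 := pow_le_pow_right₀ hD1 (by norm_num)
  have t1 := (abs_le.1 T1).1
  have t2 := (abs_le.1 T2).2
  have t3 : 2 * c * (X * c - s1) ≤ 2 * (D : ℝ) ^ 2 := by
    have : X * c - s1 ≤ (D : ℝ) ^ 2 := by linarith
    have hD20 : 0 ≤ (D : ℝ) ^ 2 := by positivity
    calc 2 * c * (X * c - s1) ≤ 2 * c * (D : ℝ) ^ 2 := mul_le_mul_of_nonneg_left this (by linarith)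
      _ ≤ 2 * 1 * (D : ℝ) ^ 2 := by gcongr
      _ = _ := by ring
  nlinarith

end Pool.Agent.TH847.LM
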